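import Pool.Agent.Helper64.Gow3

set_option autoImplicit false

/-! Szemerédi–Trotter for rich lines, all ranges. -/

namespace Pool.Agent.Helper309.Aff

open Finset Pool.Agent.Helper64.Gow
open scoped Classical

/-- few very rich lines -/
lemma few_rich {V Ls : Finset (ℝ × ℝ)} (hx : ∀ p ∈ V, ∀ q ∈ V, p.1 = q.1 → p = q) {j : ℕ}
    (hj : 2 * V.card ≤ j ^ 2) (hj0 : 0 < j)
    (h : ∀ L ∈ Ls, j ≤ (V.filter (fun p => on L p)).card) : j * Ls.card ≤ 2 * V.card := by
  set n := V.card with hn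
  set t := Ls.card with ht
  set I : ℕ := ∑ p ∈ V, (Ls.filter (fun L => on L p)).card with hI
  have hI2 : I = ∑ L ∈ Ls, (V.filter (fun p => on L p)).card := by
    rw [hI]
    simp only [Finset.card_filter]
    exact Finset.sum_comm
  have h1 : j * t ≤ I := by
    rw [hI2, ht, mul_comm, ← smul_eq_mul, ← Finset.sum_const]
    exact Finset.sum_le_sum h
  have h2 : I ^ 2 ≤ n * ∑ p ∈ V, (Ls.filter (fun L => on L p)).card ^ 2 := by
    rw [hI, hn]
    exact sq_sum_le_card_mul_sum_sq
  have h3 : ∑ p ∈ V, (Ls.filter (fun L => on L p)).card ^ 2 ≤ I + t ^ 2 := by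
    have e1 : ∀ p, (Ls.filter (fun L => on L p)).card ^ 2 =
        ∑ L ∈ Ls, ∑ L' ∈ Ls, if on L p ∧ on L' p then 1 else 0 := by
      intro p
      rw [sq, Finset.card_filter, Finset.sum_mul_sum]
      refine Finset.sum_congr rfl fun L _ => Finset.sum_congr rfl fun L' _ => ?_
      by_cases a : on L p <;> by_cases b : on L' p <;> simp [a, b]
    have e2 : ∑ p ∈ V, (Ls.filter (fun L => on L p)).card ^ 2 =
        ∑ L ∈ Ls, ∑ L' ∈ Ls, (V.filter (fun p => on L p ∧ on L' p)).card := by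
      rw [Finset.sum_congr rfl (fun p _ => e1 p), Finset.sum_comm]
      refine Finset.sum_congr rfl fun L _ => ?_
      rw [Finset.sum_comm]
      refine Finset.sum_congr rfl fun L' _ => ?_
      rw [Finset.card_filter]
    rw [e2]
    have e3 : ∀ L ∈ Ls, ∑ L' ∈ Ls, (V.filter (fun p => on L p ∧ on L' p)).card ≤
        (V.filter (fun p => on L p)).card + t := by
      intro L hL
      rw [← Finset.add_sum_erase _ _ hL]
      refine Nat.add_le_add ?_ ?_
      · exact Finset.card_le_card (fun p hp => by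
          simp only [Finset.mem_filter] at hp ⊢
          exact ⟨hp.1, hp.2.1⟩)
      · calc ∑ L' ∈ Ls.erase L, (V.filter (fun p => on L p ∧ on L' p)).card
            ≤ ∑ L' ∈ Ls.erase L, 1 := by
              refine Finset.sum_le_sum fun L' hL' => ?_
              rw [Finset.card_le_one]
              intro p hp q hq
              simp only [Finset.mem_filter] at hp hq
              by_contra hpq
              have hne : p.1 ≠ q.1 := fun h => hpq (hx p hp.1 q hq.1 h)
              apply Finset.ne_of_mem_erase hL'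
              obtain ⟨_, a1, a2⟩ := hp
              obtain ⟨_, b1, b2⟩ := hq
              unfold on at a1 a2 b1 b2
              have c1 : L.1 * (p.1 - q.1) = p.2 - q.2 := by linarith
              have c2 : L'.1 * (p.1 - q.1) = p.2 - q.2 := by linarith
              have c3 : L'.1 = L.1 := by
                have : p.1 - q.1 ≠ 0 := sub_ne_zero.2 hne
                exact mul_right_cancel₀ this (c2.trans c1.symm)
              refine Prod.ext c3 ?_
              rw [c3] at a2
              linarith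
          _ = (Ls.erase L).card := by simp
          _ ≤ t := Finset.card_le_card (Finset.erase_subset _ _)
    calc _ ≤ ∑ L ∈ Ls, ((V.filter (fun p => on L p)).card + t) := Finset.sum_le_sum e3
      _ = I + t ^ 2 := by
        rw [Finset.sum_add_distrib, ← hI2, Finset.sum_const, smul_eq_mul, ← ht, sq]
  have h4 : I ^ 2 ≤ n * (I + t ^ 2) := h2.trans (Nat.mul_le_mul_left _ h3)
  have h5 : 2 * n * t ^ 2 ≤ I ^ 2 := by
    calc 2 * n * t ^ 2 ≤ j ^ 2 * t ^ 2 := Nat.mul_le_mul_right _ hj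
      _ = (j * t) ^ 2 := by ring
      _ ≤ I ^ 2 := Nat.pow_le_pow_left h1 2
  have h6 : I * I ≤ 2 * n * I := by nlinarith
  rcases Nat.eq_zero_or_pos I with h0 | h0
  · omega
  · exact h1.trans (Nat.le_of_mul_le_mul_right h6 h0)

/-- Szemerédi–Trotter for rich lines. -/
lemma st_rich {V Ls : Finset (ℝ × ℝ)} (hx : ∀ p ∈ V, ∀ q ∈ V, p.1 = q.1 → p = q) {j : ℕ}
    (hj : 2 ≤ j) (h : ∀ L ∈ Ls, j ≤ (V.filter (fun p => on L p)).card) :
    j ^ 3 * Ls.card ≤ 576 * (V.card ^ 2 + j ^ 2 * V.card) := by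
  obtain ⟨k, rfl⟩ : ∃ k, j = k + 1 := ⟨j - 1, by omega⟩
  rcases le_or_gt (k ^ 2) (12 * V.card) with h1 | h1
  · have h2 := Pool.Agent.Helper64.Gow.ST hx h1 h
    have h3 : (k + 1) ^ 3 ≤ 8 * k ^ 3 := by
      have : k + 1 ≤ 2 * k := by omega
      calc (k + 1) ^ 3 ≤ (2 * k) ^ 3 := Nat.pow_le_pow_left this 3
        _ = 8 * k ^ 3 := by ring
    calc (k + 1) ^ 3 * Ls.card ≤ 8 * k ^ 3 * Ls.card := Nat.mul_le_mul_right _ h3
      _ = 8 * (k ^ 3 * Ls.card) := by ring
      _ ≤ 8 * (72 * V.card ^ 2) := Nat.mul_le_mul_left _ h2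
      _ ≤ 576 * (V.card ^ 2 + (k + 1) ^ 2 * V.card) := by nlinarith [Nat.zero_le ((k + 1) ^ 2 * V.card)]
  · have h2 : 2 * V.card ≤ (k + 1) ^ 2 := by nlinarith
    have h3 := few_rich hx h2 (by omega) h
    calc (k + 1) ^ 3 * Ls.card = (k + 1) ^ 2 * ((k + 1) * Ls.card) := by ring
      _ ≤ (k + 1) ^ 2 * (2 * V.card) := Nat.mul_le_mul_left _ h3
      _ ≤ 576 * (V.card ^ 2 + (k + 1) ^ 2 * V.card) := by
        nlinarith [Nat.zero_le ((k + 1) ^ 2 * V.card), Nat.zero_le (V.card ^ 2)]

end Pool.Agent.Helper309.Aff
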