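import Pool.Agent.Helper309.Aff.A1

set_option autoImplicit false

/-! Szemerédi–Trotter for pairwise independent vectors and planes in a real vector space. -/

namespace Pool.Agent.Helper309.Aff

open Finset Pool.Agent.Helper64.Gow
open scoped Classical

variable {W : Type*} [AddCommGroup W] [Module ℝ W]

/-- `p` and `q` are not proportional. -/
def Indep (p q : W) : Prop := ∀ a b : ℝ, a • p + b • q = 0 → a = 0 ∧ b = 0

lemma Indep.symm {p q : W} (h : Indep p q) : Indep q p := fun a b hab => by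
  have := h b a (by rw [add_comm]; exact hab)
  exact ⟨this.2, this.1⟩

lemma Indep.left {p q : W} (h : Indep p q) : p ≠ 0 := by
  rintro rfl
  have := (h 1 0 (by simp)).1
  exact one_ne_zero this

lemma Indep.right {p q : W} (h : Indep p q) : q ≠ 0 := h.symm.left

lemma dual_ne {S : Finset W} (hS : ∀ s ∈ S, s ≠ 0) : ∃ f : W →ₗ[ℝ] ℝ, ∀ s ∈ S, f s ≠ 0 := by
  obtain ⟨f, hf⟩ := Module.exists_dual_forall_apply_ne_zero (K := ℝ) (fun s : S => (s : W))
    (fun s => hS s s.2)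
  exact ⟨f, fun s hs => hf ⟨s, hs⟩⟩

theorem pst {Q : Finset W} (hQ0 : ∀ p ∈ Q, p ≠ 0)
    (hQ : ∀ p ∈ Q, ∀ q ∈ Q, p ≠ q → Indep p q) {Hs : Finset (Submodule ℝ W)} {j : ℕ} (hj : 2 ≤ j)
    (hd : ∀ H ∈ Hs, ∀ p ∈ Q, ∀ q ∈ Q, p ∈ H → q ∈ H → p ≠ q → H = Submodule.span ℝ {p, q})
    (h : ∀ H ∈ Hs, j ≤ (Q.filter (fun p => p ∈ H)).card) :
    j ^ 3 * Hs.card ≤ 576 * (Q.card ^ 2 + j ^ 2 * Q.card) := by
  obtain ⟨w, hw⟩ := dual_ne hQ0
  obtain ⟨nm, nmd⟩ : ∃ nm : W → W, ∀ x, nm x = (w x)⁻¹ • x := ⟨_, fun _ => rfl⟩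
  have hw1 : ∀ x ∈ Q, w (nm x) = 1 := by
    intro x hx
    simp only [nmd, map_smul, smul_eq_mul]
    exact inv_mul_cancel₀ (hw x hx)
  have hnm : ∀ x ∈ Q, x = w x • nm x := by
    intro x hx
    simp only [nmd, smul_smul]
    rw [mul_inv_cancel₀ (hw x hx), one_smul]
  have hnmI : ∀ p ∈ Q, ∀ q ∈ Q, p ≠ q → Indep (nm p) (nm q) := by
    intro p hp q hq hpq a b hab
    simp only [nmd, smul_smul] at hab
    obtain ⟨h1, h2⟩ := hQ p hp q hq hpq _ _ hab
    constructor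
    · exact (mul_eq_zero.1 h1).resolve_right (inv_ne_zero (hw p hp))
    · exact (mul_eq_zero.1 h2).resolve_right (inv_ne_zero (hw q hq))
  have hnmne : ∀ p ∈ Q, ∀ q ∈ Q, p ≠ q → nm p - nm q ≠ 0 := by
    intro p hp q hq hpq h0
    have := hnmI p hp q hq hpq 1 (-1) (by rw [one_smul, neg_one_smul, ← sub_eq_add_neg]; exact h0)
    exact one_ne_zero this.1
  obtain ⟨α, hα'⟩ := dual_ne (S := Q.offDiag.image (fun x => nm x.1 - nm x.2)) (by
    intro s hs
    obtain ⟨⟨p, q⟩, hpq, rfl⟩ := Finset.mem_image.1 hs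
    rw [Finset.mem_offDiag] at hpq
    exact hnmne p hpq.1 q hpq.2.1 hpq.2.2)
  have hα : ∀ p ∈ Q, ∀ q ∈ Q, p ≠ q → α (nm p) ≠ α (nm q) := by
    intro p hp q hq hpq h0
    refine hα' (nm p - nm q) (Finset.mem_image.2 ⟨(p, q), Finset.mem_offDiag.2 ⟨hp, hq, hpq⟩, rfl⟩) ?_
    rw [map_sub, h0, sub_self]
  let v : W → W → W → W := fun p q r => (α (nm q) - α (nm r)) • nm p + (α (nm r) - α (nm p)) • nm q +
    (α (nm p) - α (nm q)) • nm r
  obtain ⟨β, hβ'⟩ := dual_ne
    (S := ((Q ×ˢ (Q ×ˢ Q)).image (fun x => v x.1 x.2.1 x.2.2)).filter (fun s => s ≠ 0)) (by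
      intro s hs
      exact (Finset.mem_filter.1 hs).2)
  have hβ : ∀ p ∈ Q, ∀ q ∈ Q, ∀ r ∈ Q, β (v p q r) = 0 → v p q r = 0 := by
    intro p hp q hq r hr h0
    by_contra hne
    refine hβ' (v p q r) (Finset.mem_filter.2 ⟨Finset.mem_image.2 ⟨(p, q, r), ?_, rfl⟩, hne⟩) h0
    simp only [Finset.mem_product]
    exact ⟨hp, hq, hr⟩
  let π : W → ℝ × ℝ := fun x => (α (nm x), β (nm x))
  have hπ : Set.InjOn π Q := by
    intro p hp q hq hpq
    by_contra hne
    exact hα p hp q hq hne (congrArg Prod.fst hpq)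
  have hx : ∀ p ∈ Q.image π, ∀ q ∈ Q.image π, p.1 = q.1 → p = q := by
    intro p hp q hq hpq
    obtain ⟨p', hp', rfl⟩ := Finset.mem_image.1 hp
    obtain ⟨q', hq', rfl⟩ := Finset.mem_image.1 hq
    by_cases h : p' = q'
    · rw [h]
    · exact absurd hpq (hα p' hp' q' hq' h)
  have hpts : ∀ H : Submodule ℝ W, ∃ p q : W, H ∈ Hs → p ∈ Q ∧ q ∈ Q ∧ p ∈ H ∧ q ∈ H ∧ p ≠ q := by
    intro H
    by_cases hH : H ∈ Hs
    · have h1 : 1 < (Q.filter (fun p => p ∈ H)).card := lt_of_lt_of_le (by omega) (h H hH)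
      obtain ⟨p, hp, q, hq, hpq⟩ := Finset.one_lt_card.1 h1
      rw [Finset.mem_filter] at hp hq
      exact ⟨p, q, fun _ => ⟨hp.1, hq.1, hp.2, hq.2, hpq⟩⟩
    · exact ⟨0, 0, fun h => absurd h hH⟩
  choose P P' hP using hpts
  let L : Submodule ℝ W → ℝ × ℝ := fun H =>
    ((β (nm (P' H)) - β (nm (P H))) / (α (nm (P' H)) - α (nm (P H))),
      β (nm (P H)) - (β (nm (P' H)) - β (nm (P H))) / (α (nm (P' H)) - α (nm (P H))) * α (nm (P H)))
  have honL : ∀ H ∈ Hs, ∀ x ∈ Q, x ∈ H → on (L H) (π x) := by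
    intro H hH x hx hxH
    obtain ⟨h1, h2, h3, h4, h5⟩ := hP H hH
    have hspan := hd H hH _ h1 _ h2 h3 h4 h5
    rw [hspan, Submodule.mem_span_pair] at hxH
    obtain ⟨a, b, hab⟩ := hxH
    have e1 : nm x = ((w x)⁻¹ * a * w (P H)) • nm (P H) + ((w x)⁻¹ * b * w (P' H)) • nm (P' H) := by
      have : nm x = (w x)⁻¹ • (a • P H + b • P' H) := by
        rw [hab, nmd]
      rw [this]
      conv_lhs => rw [hnm _ h1, hnm _ h2]
      simp only [smul_add, smul_smul, mul_assoc]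
    set a' := (w x)⁻¹ * a * w (P H)
    set b' := (w x)⁻¹ * b * w (P' H)
    have e2 : a' + b' = 1 := by
      have := congrArg w e1
      rw [hw1 x hx, map_add, map_smul, map_smul, hw1 _ h1, hw1 _ h2] at this
      simpa using this.symm
    have hne : α (nm (P' H)) - α (nm (P H)) ≠ 0 := sub_ne_zero.2 (hα _ h2 _ h1 h5.symm)
    show β (nm x) = _ * α (nm x) + _
    rw [e1]
    simp only [map_add, map_smul, smul_eq_mul, L]
    have e3 : a' = 1 - b' := by linarith
    rw [e3]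
    field_simp
    ring
  have hLinj : Set.InjOn L Hs := by
    intro H hH H' hH' hLL
    obtain ⟨h1, h2, h3, h4, h5⟩ := hP H hH
    have key : ∀ r ∈ Q, r ∈ H' → r ∈ H := by
      intro r hr hrH'
      have o1 := honL H hH _ h1 h3
      have o2 := honL H hH _ h2 h4
      have o3 := honL H' hH' r hr hrH'
      rw [← hLL] at o3
      unfold on at o1 o2 o3
      simp only [π] at o1 o2 o3
      have h0 : v (P H) (P' H) r = 0 := by
        apply hβ _ h1 _ h2 _ hr
        simp only [v, map_add, map_smul, smul_eq_mul]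
        rw [o1, o2, o3]
        ring
      have hne : α (nm (P H)) - α (nm (P' H)) ≠ 0 := sub_ne_zero.2 (hα _ h1 _ h2 h5)
      have h6 : nm r ∈ H := by
        have h7 : (α (nm (P H)) - α (nm (P' H))) • nm r =
            -((α (nm (P' H)) - α (nm r)) • nm (P H) + (α (nm r) - α (nm (P H))) • nm (P' H)) := by
          rw [eq_neg_iff_add_eq_zero, add_comm]
          exact h0
        have h8 : (α (nm (P H)) - α (nm (P' H))) • nm r ∈ H := by
          have i1 : nm (P H) ∈ H := by rw [nmd]; exact H.smul_mem _ h3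
          have i2 : nm (P' H) ∈ H := by rw [nmd]; exact H.smul_mem _ h4
          rw [h7]
          exact H.neg_mem (H.add_mem (H.smul_mem _ i1) (H.smul_mem _ i2))
        have h9 := H.smul_mem (α (nm (P H)) - α (nm (P' H)))⁻¹ h8
        rwa [smul_smul, inv_mul_cancel₀ hne, one_smul] at h9
      rw [hnm r hr]
      exact H.smul_mem _ h6
    obtain ⟨g1, g2, g3, g4, g5⟩ := hP H' hH'
    rw [hd H hH _ g1 _ g2 (key _ g1 g3) (key _ g2 g4) g5, ← hd H' hH' _ g1 _ g2 g3 g4 g5]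
  have hcardL : (Hs.image L).card = Hs.card := Finset.card_image_of_injOn hLinj
  have hcardQ : (Q.image π).card = Q.card := Finset.card_image_of_injOn hπ
  have hfin := st_rich (V := Q.image π) (Ls := Hs.image L) hx hj (by
    intro M hM
    obtain ⟨H, hH, rfl⟩ := Finset.mem_image.1 hM
    refine (h H hH).trans ?_
    rw [← Finset.card_image_of_injOn (hπ.mono (Finset.coe_subset.2 (Finset.filter_subset (fun p => p ∈ H) Q)))]
    refine Finset.card_le_card fun y hy => ?_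
    obtain ⟨x, hx, rfl⟩ := Finset.mem_image.1 hy
    rw [Finset.mem_filter] at hx
    exact Finset.mem_filter.2 ⟨Finset.mem_image_of_mem _ hx.1, honL H hH x hx.1 hx.2⟩)
  rw [hcardL, hcardQ] at hfin
  exact hfin

end Pool.Agent.Helper309.Aff
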