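import Pool.Agent.Helper309.Aff.A2

set_option autoImplicit false

/-! The planar energy bound. -/

namespace Pool.Agent.Helper309.Aff

open Finset Pool.Agent.Helper64.Gow
open scoped Classical

variable {V : Type*} [AddCommGroup V] [Module ℝ V]

lemma span_eq_of_indep {p q p' q' : V} (hp : p' ∈ Submodule.span ℝ {p, q})
    (hq : q' ∈ Submodule.span ℝ {p, q}) (h : Indep p' q') :
    Submodule.span ℝ {p, q} = Submodule.span ℝ {p', q'} := by
  apply le_antisymm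
  · rw [Submodule.mem_span_pair] at hp hq
    obtain ⟨a, b, rfl⟩ := hp
    obtain ⟨c, d, rfl⟩ := hq
    have hdet : a * d - b * c ≠ 0 := by
      intro h0
      have e1 : d • (a • p + b • q) + (-b) • (c • p + d • q) = 0 := by
        have : d • (a • p + b • q) + (-b) • (c • p + d • q) = (a * d - b * c) • p := by
          module
        rw [this, h0, zero_smul]
      obtain ⟨hd, hb⟩ := h _ _ e1
      have hb' : b = 0 := by linarith
      have e2 : (-c) • (a • p + b • q) + a • (c • p + d • q) = 0 := by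
        rw [hd, hb']
        module
      obtain ⟨hc, ha⟩ := h _ _ e2
      apply h.left
      rw [ha, hb']
      simp
    rw [Submodule.span_le]
    rintro x (rfl | rfl)
    · rw [SetLike.mem_coe, Submodule.mem_span_pair]
      refine ⟨(a * d - b * c)⁻¹ * d, -((a * d - b * c)⁻¹ * b), ?_⟩
      have : ((a * d - b * c)⁻¹ * d) • (a • x + b • q) + (-((a * d - b * c)⁻¹ * b)) • (c • x + d • q) =
          ((a * d - b * c)⁻¹ * (a * d - b * c)) • x := by module
      rw [this, inv_mul_cancel₀ hdet, one_smul]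
    · rw [SetLike.mem_coe, Submodule.mem_span_pair]
      refine ⟨-((a * d - b * c)⁻¹ * c), (a * d - b * c)⁻¹ * a, ?_⟩
      have : (-((a * d - b * c)⁻¹ * c)) • (a • p + b • x) + ((a * d - b * c)⁻¹ * a) • (c • p + d • x) =
          ((a * d - b * c)⁻¹ * (a * d - b * c)) • x := by module
      rw [this, inv_mul_cancel₀ hdet, one_smul]
  · rw [Submodule.span_le]
    rintro x (rfl | rfl)
    · exact hp
    · exact hq

lemma pow_le_sum (r : ℕ) {k : ℕ} (hk : 1 ≤ k) : r ^ k ≤ ∑ j ∈ range r, k * (j + 1) ^ (k - 1) := by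
  induction r with
  | zero => simp [Nat.pos_iff_ne_zero.1 hk]
  | succ r ih =>
    rw [Finset.sum_range_succ]
    have h1 : ∀ k : ℕ, (r + 1) ^ (k + 1) ≤ r ^ (k + 1) + (k + 1) * (r + 1) ^ k := by
      intro k
      induction k with
      | zero => simp
      | succ k ihk =>
        have h2 : r ^ (k + 1) ≤ (r + 1) ^ (k + 1) := Nat.pow_le_pow_left (by omega) _
        calc (r + 1) ^ (k + 1 + 1) = (r + 1) * (r + 1) ^ (k + 1) := by ring
          _ ≤ (r + 1) * (r ^ (k + 1) + (k + 1) * (r + 1) ^ k) := Nat.mul_le_mul_left _ ihk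
          _ = r ^ (k + 1 + 1) + r ^ (k + 1) + (k + 1) * (r + 1) ^ (k + 1) := by ring
          _ ≤ r ^ (k + 1 + 1) + (r + 1) ^ (k + 1) + (k + 1) * (r + 1) ^ (k + 1) := by omega
          _ = r ^ (k + 1 + 1) + (k + 1 + 1) * (r + 1) ^ (k + 1) := by ring
    obtain ⟨m, rfl⟩ : ∃ m, k = m + 1 := ⟨k - 1, by omega⟩
    have := h1 m
    simp only [Nat.add_sub_cancel] at ih ⊢
    omega

theorem base_core {X : Finset V} (hX0 : ∀ x ∈ X, x ≠ 0)
    (hX : ∀ x ∈ X, ∀ y ∈ X, x ≠ y → Indep x y)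
    (h2 : ∀ x ∈ X, ∀ y ∈ X, x ≠ y → ∀ u ∈ X, u ∈ Submodule.span ℝ {x, y})
    {k : ℕ} (hk : 2 ≤ k) {n₀ : ℕ} (hn : X.card ≤ n₀) (Z : V → Finset ℝ)
    (hZ : ∀ x, (Z x).card ≤ n₀) (S : Finset ((Fin k → V) × (Fin k → ℝ)))
    (hS : ∀ p ∈ S, (∀ i, p.1 i ∈ X) ∧ (∀ i, p.2 i ∈ Z (p.1 i)) ∧
      ∃ τ : V →ₗ[ℝ] ℝ, ∀ i, p.2 i = τ (p.1 i)) :
    ∃ N : ℕ → ℕ, (∀ j ∈ range n₀, (j + 1) ^ 3 * N j ≤ 2880 * n₀ ^ 4) ∧
      S.card ≤ n₀ ^ 2 + ∑ j ∈ range n₀, N j * (k * (j + 1) ^ (k - 1)) := by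
  set Q : Finset (V × ℝ) := X.biUnion fun x => (Z x).image (Prod.mk x) with hQdef
  have hQmem : ∀ p : V × ℝ, p ∈ Q ↔ p.1 ∈ X ∧ p.2 ∈ Z p.1 := by
    rintro ⟨x, z⟩
    simp only [hQdef, Finset.mem_biUnion, Finset.mem_image, Prod.mk.injEq]
    constructor
    · rintro ⟨a, ha, b, hb, rfl, rfl⟩
      exact ⟨ha, hb⟩
    · rintro ⟨h1, h2⟩
      exact ⟨x, h1, z, h2, rfl, rfl⟩
  have hQcard : Q.card ≤ n₀ ^ 2 := by
    calc Q.card ≤ ∑ x ∈ X, ((Z x).image (Prod.mk x)).card := Finset.card_biUnion_le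
      _ ≤ ∑ _x ∈ X, n₀ := Finset.sum_le_sum fun x _ => Finset.card_image_le.trans (hZ x)
      _ = X.card * n₀ := by simp
      _ ≤ n₀ * n₀ := Nat.mul_le_mul_right _ hn
      _ = n₀ ^ 2 := (sq n₀).symm
  have hQ0 : ∀ p ∈ Q, p ≠ 0 := by
    rintro p hp rfl
    exact hX0 _ ((hQmem _).1 hp).1 rfl
  have hQI : ∀ p ∈ Q, ∀ q ∈ Q, p ≠ q → Indep p q := by
    rintro ⟨x, z⟩ hp ⟨y, t⟩ hq hpq a b hab
    rw [hQmem] at hp hq
    have e1 : a • x + b • y = 0 := congrArg Prod.fst hab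
    have e2 : a * z + b * t = 0 := congrArg Prod.snd hab
    by_cases hxy : x = y
    · subst hxy
      have hzt : z ≠ t := fun h => hpq (by rw [h])
      rw [← add_smul] at e1
      have e3 : a + b = 0 := (smul_eq_zero.1 e1).resolve_right (hX0 _ hp.1)
      have e4 : a * (z - t) = 0 := by
        have : b = -a := by linarith
        rw [this] at e2
        linarith
      have e5 : a = 0 := (mul_eq_zero.1 e4).resolve_right (sub_ne_zero.2 hzt)
      exact ⟨e5, by linarith⟩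
    · exact hX x hp.1 y hq.1 hxy a b e1
  set Hs : Finset (Submodule ℝ (V × ℝ)) :=
    ((Q ×ˢ Q).filter (fun x => x.1.1 ≠ x.2.1)).image (fun x => Submodule.span ℝ {x.1, x.2}) with hHs
  have hHmem : ∀ H ∈ Hs, ∃ p ∈ Q, ∃ q ∈ Q, p.1 ≠ q.1 ∧ H = Submodule.span ℝ {p, q} := by
    intro H hH
    obtain ⟨⟨p, q⟩, hpq, rfl⟩ := Finset.mem_image.1 hH
    rw [Finset.mem_filter, Finset.mem_product] at hpq
    exact ⟨p, hpq.1.1, q, hpq.1.2, hpq.2, rfl⟩
  have hd : ∀ H ∈ Hs, ∀ p ∈ Q, ∀ q ∈ Q, p ∈ H → q ∈ H → p ≠ q → H = Submodule.span ℝ {p, q} := by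
    intro H hH p hp q hq hpH hqH hpq
    obtain ⟨p', hp', q', hq', hne, rfl⟩ := hHmem H hH
    exact span_eq_of_indep hpH hqH (hQI p hp q hq hpq)
  set r : Submodule ℝ (V × ℝ) → ℕ := fun H => (Q.filter (fun p => p ∈ H)).card with hr
  have hr2 : ∀ H ∈ Hs, 2 ≤ r H := by
    intro H hH
    obtain ⟨p, hp, q, hq, hne, rfl⟩ := hHmem H hH
    have hpq : p ≠ q := fun h => hne (by rw [h])
    have : ({p, q} : Finset (V × ℝ)) ⊆ Q.filter (fun u => u ∈ Submodule.span ℝ {p, q}) := by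
      intro u hu
      rw [Finset.mem_insert, Finset.mem_singleton] at hu
      rw [Finset.mem_filter]
      rcases hu with rfl | rfl
      · exact ⟨hp, Submodule.subset_span (by simp)⟩
      · exact ⟨hq, Submodule.subset_span (by simp)⟩
    have h3 := Finset.card_le_card this
    rwa [Finset.card_pair hpq] at h3
  have hrn : ∀ H ∈ Hs, r H ≤ n₀ := by
    intro H hH
    refine le_trans ?_ hn
    obtain ⟨p, hp, q, hq, hne, rfl⟩ := hHmem H hH
    refine Finset.card_le_card_of_injOn Prod.fst (fun u hu => ?_) ?_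
    · simp only [Finset.coe_filter, Set.mem_ofPred_eq] at hu
      exact ((hQmem u).1 hu.1).1
    · rintro ⟨x, z⟩ hx ⟨y, t⟩ hy hxy
      simp only [Finset.coe_filter, Set.mem_ofPred_eq] at hx hy
      have hxy' : x = y := hxy
      subst hxy'
      have h3 := (Submodule.span ℝ {p, q}).sub_mem hx.2 hy.2
      rw [Submodule.mem_span_pair] at h3
      obtain ⟨a, b, hab⟩ := h3
      have e1 : a • p.1 + b • q.1 = 0 := by
        have := congrArg Prod.fst hab
        simpa using this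
      obtain ⟨ha, hb⟩ := hX _ ((hQmem p).1 hp).1 _ ((hQmem q).1 hq).1 hne a b e1
      have e2 : a * p.2 + b * q.2 = z - t := congrArg Prod.snd hab
      rw [ha, hb] at e2
      have : z = t := by linarith
      rw [this]
  -- the number of rich planes
  have hN : ∀ j ∈ range n₀, (j + 1) ^ 3 * (Hs.filter (fun H => j + 1 ≤ r H)).card ≤
      2880 * n₀ ^ 4 := by
    intro j hj
    rw [Finset.mem_range] at hj
    have hn4 : n₀ ^ 2 ≤ n₀ ^ 4 := Nat.pow_le_pow_right (by omega) (by omega)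
    have hQ2 : Q.card ^ 2 ≤ n₀ ^ 4 := by
      calc Q.card ^ 2 ≤ (n₀ ^ 2) ^ 2 := Nat.pow_le_pow_left hQcard 2
        _ = n₀ ^ 4 := by ring
    rcases Nat.eq_zero_or_pos j with rfl | hj0
    · have h3 := pst hQ0 hQI (Hs := Hs) (j := 2) le_rfl hd hr2
      have h4 : (Hs.filter (fun H => 0 + 1 ≤ r H)).card ≤ Hs.card :=
        Finset.card_le_card (Finset.filter_subset _ _)
      simp only [zero_add, one_pow, one_mul] at h4 ⊢
      nlinarith
    · have h3 := pst hQ0 hQI (Hs := Hs.filter (fun H => j + 1 ≤ r H)) (j := j + 1) (by omega)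
        (fun H hH => hd H (Finset.mem_filter.1 hH).1) (fun H hH => (Finset.mem_filter.1 hH).2)
      have h4 : (j + 1) ^ 2 * Q.card ≤ n₀ ^ 4 := by
        calc (j + 1) ^ 2 * Q.card ≤ n₀ ^ 2 * n₀ ^ 2 :=
              Nat.mul_le_mul (Nat.pow_le_pow_left (by omega) 2) hQcard
          _ = n₀ ^ 4 := by ring
      omega
  refine ⟨fun j => (Hs.filter (fun H => j + 1 ≤ r H)).card, hN, ?_⟩
  have hsum : ∑ H ∈ Hs, r H ^ k ≤
      ∑ j ∈ range n₀, (Hs.filter (fun H => j + 1 ≤ r H)).card * (k * (j + 1) ^ (k - 1)) := by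
    calc ∑ H ∈ Hs, r H ^ k ≤ ∑ H ∈ Hs, ∑ j ∈ range (r H), k * (j + 1) ^ (k - 1) :=
          Finset.sum_le_sum fun H _ => pow_le_sum _ (by omega)
      _ = ∑ H ∈ Hs, ∑ j ∈ range n₀, if j + 1 ≤ r H then k * (j + 1) ^ (k - 1) else 0 := by
          refine Finset.sum_congr rfl fun H hH => ?_
          rw [← Finset.sum_filter]
          refine Finset.sum_congr ?_ fun _ _ => rfl
          ext j
          have := hrn H hH
          simp only [Finset.mem_range, Finset.mem_filter]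
          omega
      _ = ∑ j ∈ range n₀, ∑ H ∈ Hs, if j + 1 ≤ r H then k * (j + 1) ^ (k - 1) else 0 :=
          Finset.sum_comm
      _ = ∑ j ∈ range n₀, (Hs.filter (fun H => j + 1 ≤ r H)).card * (k * (j + 1) ^ (k - 1)) := by
          refine Finset.sum_congr rfl fun j _ => ?_
          rw [← Finset.sum_filter, Finset.sum_const, smul_eq_mul]
  set Φ : (Fin k → V) × (Fin k → ℝ) → (Fin k → V × ℝ) := fun p i => (p.1 i, p.2 i) with hΦ
  have hΦinj : Function.Injective Φ := by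
    intro p q hpq
    refine Prod.ext ?_ ?_
    · funext i
      exact congrArg Prod.fst (congrFun hpq i)
    · funext i
      exact congrArg Prod.snd (congrFun hpq i)
  have hsub : S.image Φ ⊆ Q.image (fun p (_ : Fin k) => p) ∪
      Hs.biUnion (fun H => Fintype.piFinset (fun _ : Fin k => Q.filter (fun p => p ∈ H))) := by
    intro g hg
    obtain ⟨⟨f, z⟩, hp, rfl⟩ := Finset.mem_image.1 hg
    obtain ⟨hf, hz, τ, hτ⟩ := hS _ hp
    simp only at hf hz hτ
    have hmem : ∀ i, (f i, z i) ∈ Q := fun i => (hQmem _).2 ⟨hf i, hz i⟩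
    have hk0 : 0 < k := by omega
    rw [Finset.mem_union]
    by_cases hc : ∀ i, (f i, z i) = (f ⟨0, hk0⟩, z ⟨0, hk0⟩)
    · left
      exact Finset.mem_image.2 ⟨_, hmem ⟨0, hk0⟩, by funext i; exact (hc i).symm⟩
    · right
      push Not at hc
      obtain ⟨i, hi⟩ := hc
      set o : Fin k := ⟨0, hk0⟩
      have hne : f i ≠ f o := by
        intro h
        apply hi
        rw [hτ i, hτ o, h]
      rw [Finset.mem_biUnion]
      refine ⟨Submodule.span ℝ {(f i, z i), (f o, z o)}, ?_, ?_⟩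
      · rw [hHs, Finset.mem_image]
        exact ⟨((f i, z i), (f o, z o)), Finset.mem_filter.2
          ⟨Finset.mem_product.2 ⟨hmem i, hmem o⟩, hne⟩, rfl⟩
      · rw [Fintype.mem_piFinset]
        intro l
        rw [Finset.mem_filter]
        refine ⟨hmem l, ?_⟩
        have h3 := h2 _ (hf i) _ (hf o) hne _ (hf l)
        rw [Submodule.mem_span_pair] at h3
        obtain ⟨a, b, hab⟩ := h3
        show (f l, z l) ∈ _
        rw [Submodule.mem_span_pair]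
        refine ⟨a, b, ?_⟩
        refine Prod.ext ?_ ?_
        · simpa using hab
        · have : τ (f l) = a * τ (f i) + b * τ (f o) := by
            rw [← hab]; simp
          simp only [Prod.snd_add, Prod.smul_snd, smul_eq_mul]
          rw [hτ i, hτ o, hτ l, this]
  have hcard := Finset.card_le_card hsub
  rw [Finset.card_image_of_injective _ hΦinj] at hcard
  have h3 : (Q.image (fun p (_ : Fin k) => p)).card ≤ n₀ ^ 2 := Finset.card_image_le.trans hQcard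
  have h4 : (Hs.biUnion (fun H => Fintype.piFinset (fun _ : Fin k => Q.filter (fun p => p ∈ H)))).card
      ≤ ∑ H ∈ Hs, r H ^ k := by
    refine Finset.card_biUnion_le.trans (Finset.sum_le_sum fun H _ => ?_)
    rw [Fintype.card_piFinset]
    simp [hr]
  have h5 := Finset.card_union_le (Q.image (fun p (_ : Fin k) => p))
    (Hs.biUnion (fun H => Fintype.piFinset (fun _ : Fin k => Q.filter (fun p => p ∈ H))))
  refine le_trans ?_ (Nat.add_le_add_left hsum _)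
  omega

theorem base_energy {X : Finset V} (hX0 : ∀ x ∈ X, x ≠ 0)
    (hX : ∀ x ∈ X, ∀ y ∈ X, x ≠ y → Indep x y)
    (h2 : ∀ x ∈ X, ∀ y ∈ X, x ≠ y → ∀ u ∈ X, u ∈ Submodule.span ℝ {x, y})
    {k : ℕ} (hk : 4 ≤ k) {n₀ : ℕ} (hn : X.card ≤ n₀) (Z : V → Finset ℝ)
    (hZ : ∀ x, (Z x).card ≤ n₀) (S : Finset ((Fin k → V) × (Fin k → ℝ)))
    (hS : ∀ p ∈ S, (∀ i, p.1 i ∈ X) ∧ (∀ i, p.2 i ∈ Z (p.1 i)) ∧
      ∃ τ : V →ₗ[ℝ] ℝ, ∀ i, p.2 i = τ (p.1 i)) :
    S.card ≤ 2881 * k * n₀ ^ (k + 1) := by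
  obtain ⟨N, hN, hcard⟩ := base_core hX0 hX h2 (by omega : 2 ≤ k) hn Z hZ S hS
  have hsum : ∑ j ∈ range n₀, N j * (k * (j + 1) ^ (k - 1)) ≤ 2880 * k * n₀ ^ (k + 1) := by
    calc _ ≤ ∑ _j ∈ range n₀, 2880 * k * n₀ ^ k := by
          refine Finset.sum_le_sum fun j hj => ?_
          have h3 := hN j hj
          rw [Finset.mem_range] at hj
          have h4 : (j + 1) ^ (k - 1) = (j + 1) ^ 3 * (j + 1) ^ (k - 4) := by
            rw [← pow_add]
            congr 1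
            omega
          have h5 : (j + 1) ^ (k - 4) ≤ n₀ ^ (k - 4) := Nat.pow_le_pow_left (by omega) _
          have h6 : n₀ ^ 4 * n₀ ^ (k - 4) = n₀ ^ k := by
            rw [← pow_add]
            congr 1
            omega
          calc _ = k * (((j + 1) ^ 3 * N j) * (j + 1) ^ (k - 4)) := by
                rw [h4]; ring
            _ ≤ k * ((2880 * n₀ ^ 4) * n₀ ^ (k - 4)) :=
                Nat.mul_le_mul_left _ (Nat.mul_le_mul h3 h5)
            _ = 2880 * k * n₀ ^ k := by rw [← h6]; ring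
      _ = 2880 * k * n₀ ^ (k + 1) := by
          rw [Finset.sum_const, Finset.card_range, smul_eq_mul]; ring
  have h6 : n₀ ^ 2 ≤ k * n₀ ^ (k + 1) := by
    rcases Nat.eq_zero_or_pos n₀ with h0 | h0
    · rw [h0]; simp
    · calc n₀ ^ 2 ≤ n₀ ^ (k + 1) := Nat.pow_le_pow_right h0 (by omega)
        _ = 1 * n₀ ^ (k + 1) := (one_mul _).symm
        _ ≤ k * n₀ ^ (k + 1) := Nat.mul_le_mul_right _ (by omega)
  calc S.card ≤ n₀ ^ 2 + 2880 * k * n₀ ^ (k + 1) := by omega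
    _ ≤ k * n₀ ^ (k + 1) + 2880 * k * n₀ ^ (k + 1) := Nat.add_le_add_right h6 _
    _ = 2881 * k * n₀ ^ (k + 1) := by ring

theorem base_energy3 {X : Finset V} (hX0 : ∀ x ∈ X, x ≠ 0)
    (hX : ∀ x ∈ X, ∀ y ∈ X, x ≠ y → Indep x y)
    (h2 : ∀ x ∈ X, ∀ y ∈ X, x ≠ y → ∀ u ∈ X, u ∈ Submodule.span ℝ {x, y})
    {n₀ : ℕ} (hn : X.card ≤ n₀) (Z : V → Finset ℝ)
    (hZ : ∀ x, (Z x).card ≤ n₀) (S : Finset ((Fin 3 → V) × (Fin 3 → ℝ)))
    (hS : ∀ p ∈ S, (∀ i, p.1 i ∈ X) ∧ (∀ i, p.2 i ∈ Z (p.1 i)) ∧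
      ∃ τ : V →ₗ[ℝ] ℝ, ∀ i, p.2 i = τ (p.1 i)) :
    (S.card : ℝ) ≤ 8643 * (n₀ : ℝ) ^ 4 * (1 + Real.log n₀) := by
  obtain ⟨N, hN, hcard⟩ := base_core hX0 hX h2 (by norm_num : 2 ≤ 3) hn Z hZ S hS
  rcases Nat.eq_zero_or_pos n₀ with h0 | h0
  · rw [h0] at hcard
    simp only [Finset.range_zero, Finset.sum_empty] at hcard
    have : S.card = 0 := by
      simpa using hcard
    rw [this, h0]
    simp
  have hn1 : (1 : ℝ) ≤ n₀ := by exact_mod_cast h0
  have hlog : 0 ≤ Real.log n₀ := Real.log_nonneg hn1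
  have hsum : ((∑ j ∈ range n₀, N j * (3 * (j + 1) ^ (3 - 1)) : ℕ) : ℝ) ≤
      8640 * (n₀ : ℝ) ^ 4 * (1 + Real.log n₀) := by
    push_cast
    have hterm : ∀ j ∈ range n₀, (N j : ℝ) * (3 * ((j : ℝ) + 1) ^ (3 - 1)) ≤
        8640 * (n₀ : ℝ) ^ 4 * ((j : ℝ) + 1)⁻¹ := by
      intro j hj
      have h3 : ((j : ℝ) + 1) ^ 3 * (N j : ℝ) ≤ 2880 * (n₀ : ℝ) ^ 4 := by exact_mod_cast hN j hj
      have hj0 : (0 : ℝ) < (j : ℝ) + 1 := by positivity
      have e1 : (N j : ℝ) * (3 * ((j : ℝ) + 1) ^ (3 - 1)) =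
          3 * (((j : ℝ) + 1) ^ 3 * (N j : ℝ)) * ((j : ℝ) + 1)⁻¹ := by
        field_simp
      rw [e1]
      refine mul_le_mul_of_nonneg_right ?_ (by positivity)
      linarith
    calc _ ≤ ∑ j ∈ range n₀, 8640 * (n₀ : ℝ) ^ 4 * ((j : ℝ) + 1)⁻¹ := Finset.sum_le_sum hterm
      _ = 8640 * (n₀ : ℝ) ^ 4 * ∑ j ∈ range n₀, ((j : ℝ) + 1)⁻¹ := by rw [Finset.mul_sum]
      _ ≤ 8640 * (n₀ : ℝ) ^ 4 * (1 + Real.log n₀) := by
          refine mul_le_mul_of_nonneg_left ?_ (by positivity)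
          have := harmonic_le_one_add_log n₀
          rw [harmonic] at this
          push_cast at this
          exact this
  have h7 : ((S.card : ℕ) : ℝ) ≤ (n₀ : ℝ) ^ 2 + ((∑ j ∈ range n₀, N j * (3 * (j + 1) ^ (3 - 1)) : ℕ) : ℝ) := by
    exact_mod_cast hcard
  have h8 : (n₀ : ℝ) ^ 2 ≤ (n₀ : ℝ) ^ 4 := pow_le_pow_right₀ hn1 (by norm_num)
  have h9 : 0 ≤ (n₀ : ℝ) ^ 4 * Real.log n₀ := by positivity
  have h10 : 0 ≤ (n₀ : ℝ) ^ 4 := by positivity
  nlinarith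

end Pool.Agent.Helper309.Aff
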