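import Pool.Agent.Helper309.Aff.A3

set_option autoImplicit false

/-! A weak form of Beck's theorem. -/

namespace Pool.Agent.Helper309.Aff

open Finset Pool.Agent.Helper64.Gow
open scoped Classical

variable {V : Type*} [AddCommGroup V] [Module ℝ V]

lemma sum_Ioc_id (q s : ℕ) (h : q ≤ s) : 2 * ∑ j ∈ Ioc q s, j + q * (q + 1) = s * (s + 1) := by
  induction s, h using Nat.le_induction with
  | base => simp
  | succ s hs ih =>
    rw [Finset.sum_Ioc_succ_top hs]
    nlinarith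

lemma sq_le_sum (q s : ℕ) (h : 2 * q ≤ s) : s ^ 2 ≤ 4 * ∑ j ∈ Ioc q s, j := by
  have h1 := sum_Ioc_id q s (by omega)
  have h2 : q * (q + 1) * 4 ≤ s * s + 2 * s := by nlinarith
  nlinarith

/-- the sum over the heavy planes -/
lemma heavy_sum {X : Finset V} (hX0 : ∀ x ∈ X, x ≠ 0)
    (hX : ∀ x ∈ X, ∀ y ∈ X, x ≠ y → Indep x y) {Hs : Finset (Submodule ℝ V)}
    (hd : ∀ H ∈ Hs, ∀ p ∈ X, ∀ q ∈ X, p ∈ H → q ∈ H → p ≠ q → H = Submodule.span ℝ {p, q})
    {b : ℕ} (hb : (20000 : ℝ) ≤ b)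
    (h1 : ∀ H ∈ Hs, 2 * b ≤ (X.filter (fun p => p ∈ H)).card)
    (h2 : ∀ H ∈ Hs, b * (X.filter (fun p => p ∈ H)).card ≤ X.card) :
    4 * ∑ H ∈ Hs, (X.filter (fun p => p ∈ H)).card ^ 2 ≤ X.card ^ 2 := by
  have hb0R : (0 : ℝ) < b := by linarith
  have hb0 : 0 < b := by exact_mod_cast hb0R
  have hb1 : 1 < b := by
    have : (1 : ℝ) < b := by linarith
    exact_mod_cast this
  set n := X.card with hn
  set s : Submodule ℝ V → ℕ := fun H => (X.filter (fun p => p ∈ H)).card with hs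
  set m := n / b with hm
  have hsm : ∀ H ∈ Hs, s H ≤ m := fun H hH => by
    rw [hm, Nat.le_div_iff_mul_le hb0, mul_comm]
    exact h2 H hH
  have hN : ∀ j ∈ Ioc b m, (j : ℝ) * ((Hs.filter (fun H => j ≤ s H)).card : ℝ) ≤
      576 * ((n : ℝ) ^ 2 * ((j : ℝ) ^ 2)⁻¹ + n) := by
    intro j hj
    rw [Finset.mem_Ioc] at hj
    have h3 := pst hX0 hX (Hs := Hs.filter (fun H => j ≤ s H)) (j := j) (by omega)
      (fun H hH => hd H (Finset.mem_filter.1 hH).1) (fun H hH => (Finset.mem_filter.1 hH).2)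
    have h4 : (j : ℝ) ^ 3 * ((Hs.filter (fun H => j ≤ s H)).card : ℝ) ≤
        576 * ((n : ℝ) ^ 2 + (j : ℝ) ^ 2 * n) := by exact_mod_cast h3
    have hj0 : (0 : ℝ) < j := by
      have : 0 < j := by omega
      exact_mod_cast this
    have h5 : (j : ℝ) * ((Hs.filter (fun H => j ≤ s H)).card : ℝ) =
        ((j : ℝ) ^ 2)⁻¹ * ((j : ℝ) ^ 3 * ((Hs.filter (fun H => j ≤ s H)).card : ℝ)) := by
      field_simp
    rw [h5]
    calc _ ≤ ((j : ℝ) ^ 2)⁻¹ * (576 * ((n : ℝ) ^ 2 + (j : ℝ) ^ 2 * n)) :=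
          mul_le_mul_of_nonneg_left h4 (by positivity)
      _ = 576 * ((n : ℝ) ^ 2 * ((j : ℝ) ^ 2)⁻¹ + n) := by field_simp
  have hA : ∑ H ∈ Hs, s H ^ 2 ≤ 4 * ∑ j ∈ Ioc b m, j * (Hs.filter (fun H => j ≤ s H)).card := by
    calc ∑ H ∈ Hs, s H ^ 2 ≤ ∑ H ∈ Hs, 4 * ∑ j ∈ Ioc b (s H), j :=
          Finset.sum_le_sum fun H hH => sq_le_sum b (s H) (h1 H hH)
      _ = 4 * ∑ H ∈ Hs, ∑ j ∈ Ioc b (s H), j := by rw [Finset.mul_sum]
      _ = 4 * ∑ H ∈ Hs, ∑ j ∈ Ioc b m, if j ≤ s H then j else 0 := by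
          congr 1
          refine Finset.sum_congr rfl fun H hH => ?_
          rw [← Finset.sum_filter]
          refine Finset.sum_congr ?_ fun _ _ => rfl
          ext j
          have := hsm H hH
          simp only [Finset.mem_Ioc, Finset.mem_filter]
          omega
      _ = 4 * ∑ j ∈ Ioc b m, ∑ H ∈ Hs, if j ≤ s H then j else 0 := by rw [Finset.sum_comm]
      _ = _ := by
          congr 1
          refine Finset.sum_congr rfl fun j _ => ?_
          rw [← Finset.sum_filter, Finset.sum_const, smul_eq_mul, mul_comm]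
  have hB : ((∑ j ∈ Ioc b m, j * (Hs.filter (fun H => j ≤ s H)).card : ℕ) : ℝ) ≤
      576 * ((n : ℝ) ^ 2 * (2 / b)) := by
    push_cast
    rcases le_or_gt b m with hq | hq
    · calc _ ≤ ∑ j ∈ Ioc b m, 576 * ((n : ℝ) ^ 2 * ((j : ℝ) ^ 2)⁻¹ + n) := Finset.sum_le_sum hN
        _ = 576 * ((n : ℝ) ^ 2 * ∑ j ∈ Ioc b m, ((j : ℝ) ^ 2)⁻¹ + (Ioc b m).card * n) := by
            rw [← Finset.mul_sum, Finset.sum_add_distrib, ← Finset.mul_sum, Finset.sum_const,
              nsmul_eq_mul]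
        _ ≤ 576 * ((n : ℝ) ^ 2 * (b : ℝ)⁻¹ + (n / b) * n) := by
            refine mul_le_mul_of_nonneg_left (add_le_add ?_ ?_) (by norm_num)
            · refine mul_le_mul_of_nonneg_left ?_ (by positivity)
              have := sum_Ioc_inv_sq_le_sub (α := ℝ) (k := b) (n := m) hb0.ne' hq
              have h0 : (0 : ℝ) ≤ (m : ℝ)⁻¹ := by positivity
              linarith
            · refine mul_le_mul_of_nonneg_right ?_ (by positivity)
              rw [Nat.card_Ioc]
              have h6 : ((m - b : ℕ) : ℝ) ≤ (m : ℝ) := by exact_mod_cast Nat.sub_le _ _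
              have h7 : (m : ℝ) ≤ (n : ℝ) / b := by
                rw [hm]
                exact Nat.cast_div_le
              linarith
        _ = _ := by
            field_simp
            ring
    · rw [Finset.Ioc_eq_empty (by omega), Finset.sum_empty]
      positivity
  have hA' : ((∑ H ∈ Hs, s H ^ 2 : ℕ) : ℝ) ≤
      4 * ((∑ j ∈ Ioc b m, j * (Hs.filter (fun H => j ≤ s H)).card : ℕ) : ℝ) := by
    exact_mod_cast hA
  have hC : ((4 * ∑ H ∈ Hs, s H ^ 2 : ℕ) : ℝ) ≤ ((n ^ 2 : ℕ) : ℝ) := by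
    rw [Nat.cast_mul, Nat.cast_pow]
    have h0 : (0 : ℝ) ≤ (n : ℝ) ^ 2 := by positivity
    have h8 : (2 : ℝ) / b ≤ 1 / 10000 := by
      rw [div_le_div_iff₀ hb0R (by norm_num)]
      linarith
    have h9 : (n : ℝ) ^ 2 * (2 / b) ≤ (n : ℝ) ^ 2 * (1 / 10000) := mul_le_mul_of_nonneg_left h8 h0
    have : ((4 : ℕ) : ℝ) = 4 := by norm_num
    rw [this]
    linarith
  exact_mod_cast hC

/-- a weak form of Beck's theorem -/
theorem beck {X : Finset V} (hX0 : ∀ x ∈ X, x ≠ 0)
    (hX : ∀ x ∈ X, ∀ y ∈ X, x ≠ y → Indep x y) {b : ℕ} (hb : (20000 : ℝ) ≤ b) (hn : 2 ≤ X.card)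
    (hr : ∀ x ∈ X, ∀ y ∈ X, x ≠ y →
      b * (X.filter (fun p => p ∈ Submodule.span ℝ {x, y})).card ≤ X.card) :
    ∃ A ⊆ X, X.card ≤ 8 * A.card ∧ ∀ a ∈ A, ∃ Y ⊆ X.erase a, X.card ≤ 16 * b * Y.card ∧
      ∀ y ∈ Y, ∀ y' ∈ Y, y ≠ y' → ∀ c d e : ℝ, c • y + d • y' + e • a = 0 → c = 0 ∧ d = 0 := by
  have hb0R : (0 : ℝ) < b := by linarith
  have hb0 : 0 < b := by exact_mod_cast hb0R
  set n := X.card with hnn
  set s : Submodule ℝ V → ℕ := fun H => (X.filter (fun p => p ∈ H)).card with hs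
  set Hs : Finset (Submodule ℝ V) := (X.offDiag.image (fun x => Submodule.span ℝ {x.1, x.2})).filter
    (fun H => 2 * b ≤ s H) with hHs
  have hHmem : ∀ H ∈ Hs, ∃ p ∈ X, ∃ q ∈ X, p ≠ q ∧ H = Submodule.span ℝ {p, q} := by
    intro H hH
    obtain ⟨⟨p, q⟩, hpq, rfl⟩ := Finset.mem_image.1 (Finset.mem_filter.1 hH).1
    rw [Finset.mem_offDiag] at hpq
    exact ⟨p, hpq.1, q, hpq.2.1, hpq.2.2, rfl⟩
  have hheavy := heavy_sum hX0 hX (Hs := Hs) (b := b) (by
      intro H hH p hp q hq hpH hqH hpq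
      obtain ⟨p', hp', q', hq', hne, rfl⟩ := hHmem H hH
      exact span_eq_of_indep hpH hqH (hX p hp q hq hpq)) hb
    (fun H hH => (Finset.mem_filter.1 hH).2) (by
      intro H hH
      obtain ⟨p', hp', q', hq', hne, rfl⟩ := hHmem H hH
      exact hr p' hp' q' hq' hne)
  -- light and heavy pairs
  set lt : V × V → Prop := fun x => s (Submodule.span ℝ {x.1, x.2}) < 2 * b with hlt
  have hheavy2 : (X.offDiag.filter (fun x => ¬ lt x)).card ≤ ∑ H ∈ Hs, s H ^ 2 := by
    rw [Finset.card_eq_sum_card_fiberwise (f := fun x : V × V => Submodule.span ℝ {x.1, x.2})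
      (t := Hs)]
    · refine Finset.sum_le_sum fun H hH => ?_
      have e1 : s H ^ 2 = ((X.filter (fun p => p ∈ H)) ×ˢ (X.filter (fun p => p ∈ H))).card := by
        rw [Finset.card_product, sq]
      rw [e1]
      refine Finset.card_le_card fun x hx => ?_
      rw [Finset.mem_filter, Finset.mem_filter, Finset.mem_offDiag] at hx
      obtain ⟨⟨⟨hx1, hx2, -⟩, -⟩, rfl⟩ := hx
      rw [Finset.mem_product, Finset.mem_filter, Finset.mem_filter]
      exact ⟨⟨hx1, Submodule.subset_span (by simp)⟩, ⟨hx2, Submodule.subset_span (by simp)⟩⟩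
    · intro x hx
      simp only [Finset.coe_filter, Set.mem_ofPred_eq] at hx
      simp only [hHs, Finset.coe_filter, Set.mem_ofPred_eq]
      exact ⟨Finset.mem_image_of_mem _ hx.1, by simpa [hlt] using hx.2⟩
  have hlight : n ^ 2 ≤ 4 * (X.offDiag.filter lt).card := by
    have h3 := Finset.card_filter_add_card_filter_not (s := X.offDiag) lt
    have hheavy' : 4 * ∑ H ∈ Hs, s H ^ 2 ≤ n ^ 2 := hheavy
    rw [Finset.offDiag_card, ← hnn] at h3
    have h4 : 2 * n ≤ n * n := Nat.mul_le_mul_right _ hn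
    have h5 : n ^ 2 = n * n := sq n
    omega
  set l : V → ℕ := fun a => (X.filter (fun y => a ≠ y ∧ lt (a, y))).card with hl
  have hsuml : (X.offDiag.filter lt).card = ∑ a ∈ X, l a := by
    rw [Finset.card_eq_sum_card_fiberwise (f := Prod.fst) (t := X)]
    · refine Finset.sum_congr rfl fun a ha => ?_
      rw [hl]
      refine Finset.card_bij (fun x _ => x.2) ?_ ?_ ?_
      · rintro ⟨x, y⟩ hx
        simp only [Finset.mem_filter, Finset.mem_offDiag] at hx ⊢
        obtain ⟨⟨⟨h3, h4, h5⟩, h6⟩, rfl⟩ := hx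
        exact ⟨h4, h5, h6⟩
      · rintro ⟨x, y⟩ hx ⟨x', y'⟩ hx' hxx
        simp only [Finset.mem_filter] at hx hx'
        exact Prod.ext (hx.2.trans hx'.2.symm) hxx
      · intro y hy
        simp only [Finset.mem_filter] at hy
        exact ⟨(a, y), by simp only [Finset.mem_filter, Finset.mem_offDiag]; exact ⟨⟨⟨ha, hy.1, hy.2.1⟩, hy.2.2⟩, trivial⟩, rfl⟩
    · intro x hx
      simp only [Finset.coe_filter, Set.mem_ofPred_eq, Finset.mem_offDiag] at hx
      exact hx.1.1
  refine ⟨X.filter (fun a => n ≤ 8 * l a), Finset.filter_subset _ _, ?_, ?_⟩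
  · by_contra hcon
    push Not at hcon
    have h3 : ∑ a ∈ X, l a = ∑ a ∈ X.filter (fun a => n ≤ 8 * l a), l a +
        ∑ a ∈ X.filter (fun a => ¬ n ≤ 8 * l a), l a :=
      (Finset.sum_filter_add_sum_filter_not X _ _).symm
    have h4 : ∑ a ∈ X.filter (fun a => n ≤ 8 * l a), l a ≤
        (X.filter (fun a => n ≤ 8 * l a)).card * n := by
      rw [← smul_eq_mul, ← Finset.sum_const]
      exact Finset.sum_le_sum fun a _ => Finset.card_le_card (Finset.filter_subset _ _)
    have h5 : 8 * ∑ a ∈ X.filter (fun a => ¬ n ≤ 8 * l a), l a ≤ n * n := by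
      rw [Finset.mul_sum]
      calc _ ≤ ∑ _a ∈ X.filter (fun a => ¬ n ≤ 8 * l a), n := Finset.sum_le_sum fun a ha => by
            have := (Finset.mem_filter.1 ha).2
            omega
        _ = (X.filter (fun a => ¬ n ≤ 8 * l a)).card * n := by rw [Finset.sum_const, smul_eq_mul]
        _ ≤ n * n := Nat.mul_le_mul_right _ (Finset.card_le_card (Finset.filter_subset _ _))
    have h6 : 8 * ((X.filter (fun a => n ≤ 8 * l a)).card * n) < n * n := by
      have : 0 < n := by omega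
      nlinarith
    have h7 : n ^ 2 = n * n := sq n
    omega
  · intro a ha
    rw [Finset.mem_filter] at ha
    set B := X.filter (fun y => a ≠ y ∧ lt (a, y)) with hB
    set φ : V → Submodule ℝ V := fun y => Submodule.span ℝ {a, y} with hφ
    have hex : ∀ H : Submodule ℝ V, ∃ y, H ∈ B.image φ → y ∈ B ∧ φ y = H := by
      intro H
      by_cases hH : H ∈ B.image φ
      · obtain ⟨y, hy, hyH⟩ := Finset.mem_image.1 hH
        exact ⟨y, fun _ => ⟨hy, hyH⟩⟩
      · exact ⟨0, fun h => absurd h hH⟩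
    choose g hg using hex
    have hfib : B.card ≤ (B.image φ).card * (2 * b) := by
      rw [Finset.card_eq_sum_card_image φ B, ← smul_eq_mul, ← Finset.sum_const]
      refine Finset.sum_le_sum fun H hH => ?_
      obtain ⟨y, hy, rfl⟩ := Finset.mem_image.1 hH
      have h3 : lt (a, y) := (Finset.mem_filter.1 hy).2.2
      refine le_trans (Finset.card_le_card fun z hz => ?_) h3.le
      rw [Finset.mem_filter] at hz ⊢
      refine ⟨(Finset.mem_filter.1 hz.1).1, ?_⟩
      have h4 : z ∈ φ z := Submodule.subset_span (by simp)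
      rw [hz.2] at h4
      exact h4
    refine ⟨(B.image φ).image g, ?_, ?_, ?_⟩
    · intro y hy
      obtain ⟨H, hH, rfl⟩ := Finset.mem_image.1 hy
      have h3 := (Finset.mem_filter.1 (hg H hH).1)
      exact Finset.mem_erase.2 ⟨h3.2.1.symm, h3.1⟩
    · have hinj : Set.InjOn g (B.image φ) := by
        intro H hH H' hH' hHH
        rw [← (hg H hH).2, ← (hg H' hH').2, hHH]
      rw [Finset.card_image_of_injOn hinj]
      have h3 : n ≤ 8 * B.card := ha.2
      calc n ≤ 8 * B.card := h3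
        _ ≤ 8 * ((B.image φ).card * (2 * b)) := Nat.mul_le_mul_left _ hfib
        _ = 16 * b * (B.image φ).card := by ring
    · intro y hy y' hy' hyy c d e hcde
      obtain ⟨H, hH, rfl⟩ := Finset.mem_image.1 hy
      obtain ⟨H', hH', rfl⟩ := Finset.mem_image.1 hy'
      have h3 := (Finset.mem_filter.1 (hg H hH).1)
      have h4 := (Finset.mem_filter.1 (hg H' hH').1)
      have hI : Indep a (g H) := hX a ha.1 _ h3.1 h3.2.1
      have hI' : Indep a (g H') := hX a ha.1 _ h4.1 h4.2.1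
      have hd0 : d = 0 := by
        by_contra hd
        apply hyy
        have h5 : g H' ∈ φ (g H) := by
          rw [hφ, Submodule.mem_span_pair]
          refine ⟨-(d⁻¹ * e), -(d⁻¹ * c), ?_⟩
          have h6 : d • g H' = -(c • g H + e • a) := by
            rw [eq_neg_iff_add_eq_zero]
            rw [← hcde]
            abel
          have h7 : g H' = d⁻¹ • (d • g H') := by rw [smul_smul, inv_mul_cancel₀ hd, one_smul]
          rw [h7, h6]
          module
        have h8 : φ (g H) = φ (g H') :=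
          span_eq_of_indep (Submodule.subset_span (by simp)) h5 hI'
        rw [(hg H hH).2, (hg H' hH').2] at h8
        rw [h8]
      rw [hd0, zero_smul, add_zero] at hcde
      exact ⟨(hI.symm c e hcde).1, hd0⟩

end Pool.Agent.Helper309.Aff
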