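import Pool.Agent.Helper309.Aff.A4

set_option autoImplicit false

/-! The energy bound in all dimensions. -/

namespace Pool.Agent.Helper309.Aff

open Finset Pool.Agent.Helper64.Gow
open scoped Classical

/-- the energy bound in dimension `m + 2` -/
def Psi (m k : ℕ) (c C : ℝ) (w : ℕ → ℝ) : Prop :=
  ∀ (V : Type) [AddCommGroup V] [Module ℝ V] [FiniteDimensional ℝ V], Module.finrank ℝ V = m + 2 →
    ∀ X : Finset V, (∀ x ∈ X, x ≠ 0) → (∀ x ∈ X, ∀ y ∈ X, x ≠ y → Indep x y) → X.Nonempty →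
    ∃ G : Finset (Fin k → V), (∀ f ∈ G, ∀ i, f i ∈ X) ∧ c * (X.card : ℝ) ^ k ≤ G.card ∧
      ∀ n₀ : ℕ, X.card ≤ n₀ → ∀ Z : V → Finset ℝ, (∀ x, (Z x).card ≤ n₀) →
        ∀ S : Finset ((Fin k → V) × (Fin k → ℝ)),
          (∀ p ∈ S, p.1 ∈ G ∧ (∀ i, p.2 i ∈ Z (p.1 i)) ∧ ∃ τ : V →ₗ[ℝ] ℝ, ∀ i, p.2 i = τ (p.1 i)) →
          (S.card : ℝ) ≤ C * (n₀ : ℝ) ^ (k + m + 1) * w n₀

lemma psi_planar {V : Type} [AddCommGroup V] [Module ℝ V] {X : Finset V} (hX0 : ∀ x ∈ X, x ≠ 0)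
    (hX : ∀ x ∈ X, ∀ y ∈ X, x ≠ y → Indep x y)
    (h2 : ∀ x ∈ X, ∀ y ∈ X, x ≠ y → ∀ u ∈ X, u ∈ Submodule.span ℝ {x, y})
    {k : ℕ} (hk : 4 ≤ k) :
    ∃ G : Finset (Fin k → V), (∀ f ∈ G, ∀ i, f i ∈ X) ∧ G.card = X.card ^ k ∧
      ∀ n₀ : ℕ, X.card ≤ n₀ → ∀ Z : V → Finset ℝ, (∀ x, (Z x).card ≤ n₀) →
        ∀ S : Finset ((Fin k → V) × (Fin k → ℝ)),
          (∀ p ∈ S, p.1 ∈ G ∧ (∀ i, p.2 i ∈ Z (p.1 i)) ∧ ∃ τ : V →ₗ[ℝ] ℝ, ∀ i, p.2 i = τ (p.1 i)) →
          S.card ≤ 2881 * k * n₀ ^ (k + 1) := by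
  refine ⟨Fintype.piFinset (fun _ => X), fun f hf i => Fintype.mem_piFinset.1 hf i, ?_, ?_⟩
  · rw [Fintype.card_piFinset]
    simp
  · intro n₀ hn Z hZ S hS
    refine base_energy hX0 hX h2 hk hn Z hZ S fun p hp => ?_
    obtain ⟨h1, h3, h4⟩ := hS p hp
    exact ⟨fun i => Fintype.mem_piFinset.1 h1 i, h3, h4⟩

lemma plane_of_finrank {V : Type} [AddCommGroup V] [Module ℝ V] [FiniteDimensional ℝ V]
    (hV : Module.finrank ℝ V = 2) {X : Finset V} (hX : ∀ x ∈ X, ∀ y ∈ X, x ≠ y → Indep x y) :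
    ∀ x ∈ X, ∀ y ∈ X, x ≠ y → ∀ u ∈ X, u ∈ Submodule.span ℝ {x, y} := by
  intro x hx y hy hxy u _
  have hI : LinearIndependent ℝ ![x, y] := by
    rw [LinearIndependent.pair_iff]
    exact fun s t h => hX x hx y hy hxy s t h
  have htop := hI.span_eq_top_of_card_eq_finrank (by rw [hV]; simp)
  have hr : Set.range ![x, y] = {x, y} := by simp [Set.pair_comm]
  rw [hr] at htop
  rw [htop]
  exact Submodule.mem_top

lemma psi_base {k : ℕ} (hk : 4 ≤ k) : Psi 0 k 1 (2881 * k) (fun _ => 1) := by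
  intro V _ _ _ hV X hX0 hX hne
  have h2 := plane_of_finrank hV hX
  obtain ⟨G, h3, h4, h5⟩ := psi_planar hX0 hX h2 hk
  refine ⟨G, h3, ?_, fun n₀ hn Z hZ S hS => ?_⟩
  · rw [h4]
    push_cast
    rw [one_mul]
  · have := h5 n₀ hn Z hZ S hS
    rw [mul_one]
    simp only [add_zero]
    exact_mod_cast this

lemma psi_base3 : Psi 0 3 1 8643 (fun n => 1 + Real.log n) := by
  intro V _ _ _ hV X hX0 hX hne
  have h2 := plane_of_finrank hV hX
  refine ⟨Fintype.piFinset (fun _ => X), fun f hf i => Fintype.mem_piFinset.1 hf i, ?_, ?_⟩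
  · rw [Fintype.card_piFinset]
    simp
  · intro n₀ hn Z hZ S hS
    have := base_energy3 hX0 hX h2 hn Z hZ S (fun p hp => by
      obtain ⟨h1, h3, h4⟩ := hS p hp
      exact ⟨fun i => Fintype.mem_piFinset.1 h1 i, h3, h4⟩)
    simpa using this

lemma psi_lift {m k : ℕ} {c C : ℝ} {w : ℕ → ℝ} (h : Psi m k c C w) {V : Type} [AddCommGroup V]
    [Module ℝ V] [FiniteDimensional ℝ V] (hV : Module.finrank ℝ V = m + 3) {a : V} (ha : a ≠ 0)
    {Y : Finset V} (hne : Y.Nonempty) (hY0 : ∀ y ∈ Y, Indep a y)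
    (hY : ∀ y ∈ Y, ∀ y' ∈ Y, y ≠ y' → ∀ c d e : ℝ, c • y + d • y' + e • a = 0 → c = 0 ∧ d = 0) :
    ∃ G : Finset (Fin k → V), (∀ f ∈ G, ∀ i, f i ∈ Y) ∧ c * (Y.card : ℝ) ^ k ≤ G.card ∧
      ∀ n₀ : ℕ, Y.card ≤ n₀ → ∀ Z : V → Finset ℝ, (∀ x, (Z x).card ≤ n₀) →
        ∀ S : Finset ((Fin k → V) × (Fin k → ℝ)),
          (∀ p ∈ S, p.1 ∈ G ∧ (∀ i, p.2 i ∈ Z (p.1 i)) ∧
            ∃ τ : V →ₗ[ℝ] ℝ, τ a = 0 ∧ ∀ i, p.2 i = τ (p.1 i)) →
          (S.card : ℝ) ≤ C * (n₀ : ℝ) ^ (k + m + 1) * w n₀ := by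
  set K : Submodule ℝ V := Submodule.span ℝ {a} with hK
  have hW : Module.finrank ℝ (V ⧸ K) = m + 2 := by
    have h1 := Submodule.finrank_quotient_add_finrank K
    have h2 : Module.finrank ℝ K = 1 := finrank_span_singleton ha
    omega
  have hker : ∀ x : V, K.mkQ x = 0 → ∃ e : ℝ, x = e • a := by
    intro x hx
    rw [Submodule.mkQ_apply, Submodule.Quotient.mk_eq_zero, hK, Submodule.mem_span_singleton] at hx
    obtain ⟨e, he⟩ := hx
    exact ⟨e, he.symm⟩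
  have hinj : Set.InjOn K.mkQ Y := by
    intro y hy y' hy' hyy
    by_contra hne'
    obtain ⟨e, he⟩ := hker (y - y') (by rw [map_sub, hyy, sub_self])
    have := (hY y hy y' hy' hne' 1 (-1) (-e) (by
      rw [one_smul, neg_one_smul, neg_smul, ← he]; abel)).1
    exact one_ne_zero this
  obtain ⟨σ, hσ⟩ : ∃ σ : (V ⧸ K) → V, ∀ y ∈ Y, σ (K.mkQ y) = y :=
    ⟨Function.invFunOn K.mkQ Y, fun y hy => hinj.leftInvOn_invFunOn hy⟩
  have hXcard : (Y.image K.mkQ).card = Y.card := Finset.card_image_of_injOn hinj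
  obtain ⟨G, hG1, hG2, hG3⟩ := h (V ⧸ K) hW (Y.image K.mkQ) (by
      intro x hx
      obtain ⟨y, hy, rfl⟩ := Finset.mem_image.1 hx
      intro h0
      obtain ⟨e, he⟩ := hker y h0
      have := (hY0 y hy (-e) 1 (by rw [one_smul, neg_smul, ← he]; abel)).2
      exact one_ne_zero this) (by
      intro x hx x' hx' hxx c d hcd
      obtain ⟨y, hy, rfl⟩ := Finset.mem_image.1 hx
      obtain ⟨y', hy', rfl⟩ := Finset.mem_image.1 hx'
      have hne' : y ≠ y' := fun h => hxx (by rw [h])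
      obtain ⟨e, he⟩ := hker (c • y + d • y') (by rw [map_add, map_smul, map_smul]; exact hcd)
      exact hY y hy y' hy' hne' c d (-e) (by rw [he, neg_smul]; abel)) (hne.image _)
  have hπσ : ∀ w ∈ Y.image K.mkQ, K.mkQ (σ w) = w := by
    intro w hw
    obtain ⟨y, hy, rfl⟩ := Finset.mem_image.1 hw
    rw [hσ y hy]
  have hσY : ∀ w ∈ Y.image K.mkQ, σ w ∈ Y := by
    intro w hw
    obtain ⟨y, hy, rfl⟩ := Finset.mem_image.1 hw
    rw [hσ y hy]
    exact hy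
  have hinjG : Set.InjOn (fun (f : Fin k → V ⧸ K) (i : Fin k) => σ (f i)) G := by
    intro f hf g hg hfg
    funext i
    have := congrArg K.mkQ (congrFun hfg i)
    simp only at this
    rwa [hπσ _ (hG1 f hf i), hπσ _ (hG1 g hg i)] at this
  refine ⟨G.image (fun f i => σ (f i)), ?_, ?_, ?_⟩
  · intro f hf i
    obtain ⟨g, hg, rfl⟩ := Finset.mem_image.1 hf
    exact hσY _ (hG1 g hg i)
  · rw [Finset.card_image_of_injOn hinjG, ← hXcard]
    exact hG2
  · intro n₀ hn Z hZ S hS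
    have key := hG3 n₀ (by rw [hXcard]; exact hn) (fun w => Z (σ w)) (fun w => hZ _)
      (S.image (fun p => ((fun i => K.mkQ (p.1 i)), p.2))) (by
        intro q hq
        obtain ⟨p, hp, rfl⟩ := Finset.mem_image.1 hq
        obtain ⟨h1, h2, τ, hτa, hτ⟩ := hS p hp
        obtain ⟨g, hg, hgp⟩ := Finset.mem_image.1 h1
        have e1 : (fun i => K.mkQ (p.1 i)) = g := by
          funext i
          rw [← hgp]
          exact hπσ _ (hG1 g hg i)
        refine ⟨by simp only; rw [e1]; exact hg, ?_, ?_⟩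
        · intro i
          simp only
          have e2 : K.mkQ (p.1 i) = g i := congrFun e1 i
          rw [e2]
          have e3 : σ (g i) = p.1 i := congrFun hgp i
          rw [e3]
          exact h2 i
        · refine ⟨K.liftQ τ ?_, fun i => ?_⟩
          · rw [hK, Submodule.span_singleton_le_iff_mem]
            exact hτa
          · simp only [Submodule.mkQ_apply, Submodule.liftQ_apply]
            exact hτ i)
    rwa [Finset.card_image_of_injOn] at key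
    intro p hp q hq hpq
    have e1 := congrArg Prod.fst hpq
    have e2 := congrArg Prod.snd hpq
    refine Prod.ext ?_ e2
    obtain ⟨h1, -⟩ := hS p hp
    obtain ⟨h1', -⟩ := hS q hq
    obtain ⟨g, hg, hgp⟩ := Finset.mem_image.1 h1
    obtain ⟨g', hg', hgp'⟩ := Finset.mem_image.1 h1'
    have e3 : g = g' := by
      funext i
      have e4 := congrFun e1 i
      simp only at e4
      have e5 : p.1 i = σ (g i) := (congrFun hgp i).symm
      have e6 : q.1 i = σ (g' i) := (congrFun hgp' i).symm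
      rw [e5, e6, hπσ _ (hG1 g hg i), hπσ _ (hG1 g' hg' i)] at e4
      exact e4
    rw [← hgp, ← hgp', e3]

end Pool.Agent.Helper309.Aff
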