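import Pool.Agent.Helper309.Aff.A5

set_option autoImplicit false

/-! The induction step of the energy bound. -/

namespace Pool.Agent.Helper309.Aff

open Finset Pool.Agent.Helper64.Gow
open scoped Classical

lemma psi_step {m k : ℕ} {c C : ℝ} {w : ℕ → ℝ} (hw : ∀ n, 1 ≤ n → 1 ≤ w n) (hk : 3 ≤ k)
    (hc : 0 < c) (hC : 0 ≤ C) (h : Psi m k c C w) :
    ∃ c' : ℝ, 0 < c' ∧ ∃ C' : ℝ, 0 ≤ C' ∧ Psi (m + 1) (k + 1) c' C' w := by
  obtain ⟨b, hb⟩ : ∃ b : ℕ, (20000 : ℝ) ≤ b := ⟨20000, by norm_num⟩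
  have hb0R : (0 : ℝ) < b := by linarith
  have hb0 : 0 < b := by exact_mod_cast hb0R
  refine ⟨min ((b : ℝ)⁻¹ ^ (k + 1)) (c * ((8 : ℝ)⁻¹ * (16 * (b : ℝ))⁻¹ ^ k)), by positivity,
    2881 * ((k : ℝ) + 1) + C, by positivity, ?_⟩
  intro V _ _ _ hV X hX0 hX hne
  have hn1 : 1 ≤ X.card := hne.card_pos
  -- the planar case
  have planar : ∀ X' ⊆ X, X.card ≤ b * X'.card →
      (∀ x ∈ X', ∀ y ∈ X', x ≠ y → ∀ u ∈ X', u ∈ Submodule.span ℝ {x, y}) →
      ∃ G : Finset (Fin (k + 1) → V), (∀ f ∈ G, ∀ i, f i ∈ X) ∧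
      min ((b : ℝ)⁻¹ ^ (k + 1)) (c * ((8 : ℝ)⁻¹ * (16 * (b : ℝ))⁻¹ ^ k)) * (X.card : ℝ) ^ (k + 1) ≤ G.card ∧
      ∀ n₀ : ℕ, X.card ≤ n₀ → ∀ Z : V → Finset ℝ, (∀ x, (Z x).card ≤ n₀) →
        ∀ S : Finset ((Fin (k + 1) → V) × (Fin (k + 1) → ℝ)),
          (∀ p ∈ S, p.1 ∈ G ∧ (∀ i, p.2 i ∈ Z (p.1 i)) ∧ ∃ τ : V →ₗ[ℝ] ℝ, ∀ i, p.2 i = τ (p.1 i)) →
          (S.card : ℝ) ≤ (2881 * ((k : ℝ) + 1) + C) * (n₀ : ℝ) ^ (k + 1 + (m + 1) + 1) * w n₀ := by
    intro X' hX' hcard h2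
    obtain ⟨G, h3, h4, h5⟩ := psi_planar (fun x hx => hX0 x (hX' hx))
      (fun x hx y hy hxy => hX x (hX' hx) y (hX' hy) hxy) h2 (k := k + 1) (by omega)
    refine ⟨G, fun f hf i => hX' (h3 f hf i), ?_, ?_⟩
    · rw [h4]
      push_cast
      calc _ ≤ (b : ℝ)⁻¹ ^ (k + 1) * (X.card : ℝ) ^ (k + 1) :=
            mul_le_mul_of_nonneg_right (min_le_left _ _) (by positivity)
        _ = ((b : ℝ)⁻¹ * (X.card : ℝ)) ^ (k + 1) := by rw [mul_pow]
        _ ≤ (X'.card : ℝ) ^ (k + 1) := by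
            refine pow_le_pow_left₀ (by positivity) ?_ _
            rw [inv_mul_le_iff₀ hb0R]
            exact_mod_cast hcard
    · intro n₀ hn Z hZ S hS
      have h6 := h5 n₀ ((Finset.card_le_card hX').trans hn) Z hZ S hS
      have hn₀ : (1 : ℝ) ≤ n₀ := by exact_mod_cast (show 1 ≤ n₀ by omega)
      have h7 : (n₀ : ℝ) ^ (k + 1 + 1) ≤ (n₀ : ℝ) ^ (k + 1 + (m + 1) + 1) :=
        pow_le_pow_right₀ hn₀ (by omega)
      have h6' : (S.card : ℝ) ≤ 2881 * ((k : ℝ) + 1) * (n₀ : ℝ) ^ (k + 1 + 1) := by exact_mod_cast h6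
      have hw1 := hw n₀ (by omega)
      calc (S.card : ℝ) ≤ 2881 * ((k : ℝ) + 1) * (n₀ : ℝ) ^ (k + 1 + 1) := h6'
        _ ≤ 2881 * ((k : ℝ) + 1) * (n₀ : ℝ) ^ (k + 1 + (m + 1) + 1) :=
            mul_le_mul_of_nonneg_left h7 (by positivity)
        _ ≤ (2881 * ((k : ℝ) + 1) + C) * (n₀ : ℝ) ^ (k + 1 + (m + 1) + 1) :=
            mul_le_mul_of_nonneg_right (by linarith) (by positivity)
        _ = (2881 * ((k : ℝ) + 1) + C) * (n₀ : ℝ) ^ (k + 1 + (m + 1) + 1) * 1 := (mul_one _).symm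
        _ ≤ _ := mul_le_mul_of_nonneg_left hw1 (by positivity)
  by_cases hsmall : X.card < 2
  · refine planar X (Finset.Subset.refl _) (Nat.le_mul_of_pos_left _ hb0) ?_
    intro x hx y hy hxy
    exact absurd (Finset.card_le_one.1 (by omega) x hx y hy) hxy
  by_cases hrich : ∀ x ∈ X, ∀ y ∈ X, x ≠ y →
      b * (X.filter (fun p => p ∈ Submodule.span ℝ {x, y})).card ≤ X.card
  swap
  · push Not at hrich
    obtain ⟨x, hx, y, hy, hxy, hlt⟩ := hrich
    refine planar _ (Finset.filter_subset _ _) hlt.le ?_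
    intro p hp q hq hpq u hu
    rw [Finset.mem_filter] at hp hq hu
    rw [← span_eq_of_indep hp.2 hq.2 (hX p hp.1 q hq.1 hpq)]
    exact hu.2
  -- the main case
  obtain ⟨A, hAX, hA8, hAY⟩ := beck hX0 hX hb (by omega) hrich
  have hdata : ∀ a : V, ∃ G : Finset (Fin k → V), a ∈ A → (∀ f ∈ G, ∀ i, f i ∈ X) ∧
      c * ((16 * (b : ℝ))⁻¹ * X.card) ^ k ≤ G.card ∧
      ∀ n₀ : ℕ, X.card ≤ n₀ → ∀ Z : V → Finset ℝ, (∀ x, (Z x).card ≤ n₀) →
        ∀ S : Finset ((Fin k → V) × (Fin k → ℝ)),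
          (∀ p ∈ S, p.1 ∈ G ∧ (∀ i, p.2 i ∈ Z (p.1 i)) ∧
            ∃ τ : V →ₗ[ℝ] ℝ, τ a = 0 ∧ ∀ i, p.2 i = τ (p.1 i)) →
          (S.card : ℝ) ≤ C * (n₀ : ℝ) ^ (k + m + 1) * w n₀ := by
    intro a
    by_cases ha : a ∈ A
    swap
    · exact ⟨∅, fun h => absurd h ha⟩
    obtain ⟨Y, hYX, hYc, hY⟩ := hAY a ha
    have haX := hAX ha
    have hYne : Y.Nonempty := by
      rw [← Finset.card_pos]
      rcases Nat.eq_zero_or_pos Y.card with h0 | h0
      · rw [h0] at hYc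
        omega
      · exact h0
    have hYX' : ∀ y ∈ Y, y ∈ X ∧ y ≠ a := fun y hy =>
      ⟨(Finset.mem_erase.1 (hYX hy)).2, (Finset.mem_erase.1 (hYX hy)).1⟩
    obtain ⟨G, h3, h4, h5⟩ := psi_lift h hV (hX0 a haX) hYne
      (fun y hy => hX a haX y (hYX' y hy).1 (hYX' y hy).2.symm) hY
    refine ⟨G, fun _ => ⟨fun f hf i => (hYX' _ (h3 f hf i)).1, ?_, ?_⟩⟩
    · refine le_trans (mul_le_mul_of_nonneg_left (pow_le_pow_left₀ (by positivity) ?_ _) hc.le) h4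
      rw [inv_mul_le_iff₀ (by positivity)]
      exact_mod_cast hYc
    · intro n₀ hn Z hZ S hS
      refine h5 n₀ (le_trans (Finset.card_le_card fun y hy => (hYX' y hy).1) hn) Z hZ S hS
  choose G hG using hdata
  set GG : Finset (Fin (k + 1) → V) := A.biUnion (fun a => (G a).image (fun g => Fin.cons a g)) with hGG
  have hGGmem : ∀ f : Fin (k + 1) → V, f ∈ GG ↔ f 0 ∈ A ∧ Fin.tail f ∈ G (f 0) := by
    intro f
    rw [hGG, Finset.mem_biUnion]
    constructor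
    · rintro ⟨a, ha, hf⟩
      obtain ⟨g, hg, rfl⟩ := Finset.mem_image.1 hf
      rw [Fin.cons_zero, Fin.tail_cons]
      exact ⟨ha, hg⟩
    · rintro ⟨h1, h2⟩
      exact ⟨f 0, h1, Finset.mem_image.2 ⟨_, h2, Fin.cons_self_tail f⟩⟩
  refine ⟨GG, ?_, ?_, ?_⟩
  · intro f hf i
    rw [hGGmem] at hf
    refine Fin.cases (hAX hf.1) (fun j => ?_) i
    exact (hG _ hf.1).1 _ hf.2 j
  · have hcard : GG.card = ∑ a ∈ A, (G a).card := by
      rw [hGG, Finset.card_biUnion]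
      · refine Finset.sum_congr rfl fun a _ => ?_
        refine Finset.card_image_of_injective _ ?_
        intro g g' hgg
        exact (Fin.cons_inj.1 hgg).2
      · intro a _ a' _ haa
        rw [Function.onFun, Finset.disjoint_left]
        intro f hf hf'
        obtain ⟨g, hg, rfl⟩ := Finset.mem_image.1 hf
        obtain ⟨g', hg', hgg⟩ := Finset.mem_image.1 hf'
        exact haa (Fin.cons_inj.1 hgg).1.symm
    rw [hcard]
    push_cast
    have h8 : (8 : ℝ)⁻¹ * X.card ≤ A.card := by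
      rw [inv_mul_le_iff₀ (by norm_num)]
      exact_mod_cast hA8
    calc _ ≤ (c * ((8 : ℝ)⁻¹ * (16 * (b : ℝ))⁻¹ ^ k)) * (X.card : ℝ) ^ (k + 1) :=
          mul_le_mul_of_nonneg_right (min_le_right _ _) (by positivity)
      _ = ((8 : ℝ)⁻¹ * X.card) * (c * ((16 * (b : ℝ))⁻¹ * X.card) ^ k) := by
          rw [mul_pow, pow_succ]; ring
      _ ≤ A.card * (c * ((16 * (b : ℝ))⁻¹ * X.card) ^ k) :=
          mul_le_mul_of_nonneg_right h8 (by positivity)
      _ = ∑ _a ∈ A, (c * ((16 * (b : ℝ))⁻¹ * X.card) ^ k) := by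
          rw [Finset.sum_const, nsmul_eq_mul]
      _ ≤ ∑ a ∈ A, ((G a).card : ℝ) := Finset.sum_le_sum fun a ha => (hG a ha).2.1
  · intro n₀ hn Z hZ S hS
    have hpart : S.card ≤ ∑ x ∈ A.sigma Z, (S.filter (fun p => p.1 0 = x.1 ∧ p.2 0 = x.2)).card := by
      rw [Finset.card_eq_sum_card_fiberwise (f := fun p => (⟨p.1 0, p.2 0⟩ : (_ : V) × ℝ))
        (t := A.sigma Z)]
      · refine Finset.sum_le_sum fun x _ => Finset.card_le_card fun p hp => ?_
        rw [Finset.mem_filter] at hp ⊢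
        obtain ⟨h1, rfl⟩ := hp
        exact ⟨h1, rfl, rfl⟩
      · intro p hp
        obtain ⟨h1, h2, -⟩ := hS p hp
        simp only [Finset.coe_sigma, Set.mem_sigma_iff, Finset.mem_coe]
        exact ⟨((hGGmem _).1 h1).1, h2 0⟩
    have hfib : ∀ x ∈ A.sigma Z, ((S.filter (fun p => p.1 0 = x.1 ∧ p.2 0 = x.2)).card : ℝ) ≤
        C * (n₀ : ℝ) ^ (k + m + 1) * w n₀ := by
      rintro ⟨a, z⟩ hx
      rw [Finset.mem_sigma] at hx
      simp only at hx ⊢
      obtain ⟨haA, hz⟩ := hx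
      obtain ⟨f, hf⟩ := dual_ne (S := {a}) (by
        intro s hs
        rw [Finset.mem_singleton] at hs
        rw [hs]
        exact hX0 a (hAX haA))
      have hfa := hf a (Finset.mem_singleton_self a)
      set τ₀ : V →ₗ[ℝ] ℝ := (z / f a) • f with hτ₀
      have hτ₀a : τ₀ a = z := by
        rw [hτ₀, LinearMap.smul_apply, smul_eq_mul]
        field_simp
      have key := (hG a haA).2.2 n₀ hn (fun x => (Z x).image (fun t => t - τ₀ x))
        (fun x => Finset.card_image_le.trans (hZ x))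
        ((S.filter (fun p => p.1 0 = a ∧ p.2 0 = z)).image
          (fun p => (Fin.tail p.1, fun i => p.2 i.succ - τ₀ (p.1 i.succ)))) (by
          intro q hq
          obtain ⟨p, hp, rfl⟩ := Finset.mem_image.1 hq
          rw [Finset.mem_filter] at hp
          obtain ⟨hpS, hp1, hp2⟩ := hp
          obtain ⟨h1, h2, τ, hτ⟩ := hS p hpS
          rw [hGGmem, hp1] at h1
          refine ⟨h1.2, fun i => ?_, τ - τ₀, ?_, fun i => ?_⟩
          · exact Finset.mem_image.2 ⟨p.2 i.succ, h2 i.succ, rfl⟩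
          · rw [LinearMap.sub_apply, hτ₀a, ← hp1, ← hτ 0, hp2, sub_self]
          · simp only [Fin.tail, LinearMap.sub_apply]
            rw [hτ i.succ])
      rwa [Finset.card_image_of_injOn] at key
      intro p hp q hq hpq
      simp only [Finset.coe_filter, Set.mem_ofPred_eq] at hp hq
      have e1 : Fin.tail p.1 = Fin.tail q.1 := congrArg Prod.fst hpq
      have e2 : ∀ i : Fin k, p.2 i.succ - τ₀ (p.1 i.succ) = q.2 i.succ - τ₀ (q.1 i.succ) :=
        fun i => congrFun (congrArg Prod.snd hpq) i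
      have e3 : p.1 = q.1 := by
        funext i
        refine Fin.cases (hp.2.1.trans hq.2.1.symm) (fun j => congrFun e1 j) i
      refine Prod.ext e3 ?_
      funext i
      refine Fin.cases (hp.2.2.trans hq.2.2.symm) (fun j => ?_) i
      have := e2 j
      rw [e3] at this
      linarith
    have hn₀ : (1 : ℝ) ≤ n₀ := by exact_mod_cast (show 1 ≤ n₀ by omega)
    have hw1 := hw n₀ (by omega)
    have hw0 : 0 ≤ w n₀ := by linarith
    have hsig : ((A.sigma Z).card : ℝ) ≤ (n₀ : ℝ) * n₀ := by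
      have : (A.sigma Z).card ≤ n₀ * n₀ := by
        rw [Finset.card_sigma]
        calc ∑ a ∈ A, (Z a).card ≤ ∑ _a ∈ A, n₀ := Finset.sum_le_sum fun a _ => hZ a
          _ = A.card * n₀ := by rw [Finset.sum_const, smul_eq_mul]
          _ ≤ n₀ * n₀ := Nat.mul_le_mul_right _ ((Finset.card_le_card hAX).trans hn)
      exact_mod_cast this
    have hpart' : (S.card : ℝ) ≤
        ∑ x ∈ A.sigma Z, ((S.filter (fun p => p.1 0 = x.1 ∧ p.2 0 = x.2)).card : ℝ) := by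
      exact_mod_cast hpart
    calc (S.card : ℝ) ≤ ∑ x ∈ A.sigma Z, ((S.filter (fun p => p.1 0 = x.1 ∧ p.2 0 = x.2)).card : ℝ) :=
          hpart'
      _ ≤ ∑ _x ∈ A.sigma Z, C * (n₀ : ℝ) ^ (k + m + 1) * w n₀ := Finset.sum_le_sum hfib
      _ = (A.sigma Z).card * (C * (n₀ : ℝ) ^ (k + m + 1) * w n₀) := by
          rw [Finset.sum_const, nsmul_eq_mul]
      _ ≤ ((n₀ : ℝ) * n₀) * (C * (n₀ : ℝ) ^ (k + m + 1) * w n₀) :=
          mul_le_mul_of_nonneg_right hsig (by positivity)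
      _ = C * (n₀ : ℝ) ^ (k + 1 + (m + 1) + 1) * w n₀ := by ring
      _ ≤ _ := by
          refine mul_le_mul_of_nonneg_right (mul_le_mul_of_nonneg_right ?_ (by positivity)) hw0
          have : (0 : ℝ) ≤ 2881 * ((k : ℝ) + 1) := by positivity
          linarith

/-- the energy bound in all dimensions -/
theorem psi_all (m : ℕ) : ∀ k : ℕ, m + 4 ≤ k →
    ∃ c : ℝ, 0 < c ∧ ∃ C : ℝ, 0 ≤ C ∧ Psi m k c C (fun _ => 1) := by
  induction m with
  | zero => exact fun k hk => ⟨1, one_pos, _, by positivity, psi_base (by omega)⟩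
  | succ m ih =>
    intro k hk
    obtain ⟨k', rfl⟩ : ∃ k', k = k' + 1 := ⟨k - 1, by omega⟩
    obtain ⟨c, hc, C, hC, h⟩ := ih k' (by omega)
    exact psi_step (fun _ _ => le_rfl) (by omega) hc hC h

/-- the energy bound for `k = d + 2` -/
theorem psi_all3 (m : ℕ) :
    ∃ c : ℝ, 0 < c ∧ ∃ C : ℝ, 0 ≤ C ∧ Psi m (m + 3) c C (fun n => 1 + Real.log n) := by
  induction m with
  | zero => exact ⟨1, one_pos, _, by norm_num, psi_base3⟩
  | succ m ih =>
    obtain ⟨c, hc, C, hC, h⟩ := ih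
    exact psi_step (fun n hn => by
      have : (1 : ℝ) ≤ n := by exact_mod_cast hn
      have := Real.log_nonneg this
      linarith) (by omega) hc hC h

end Pool.Agent.Helper309.Aff
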