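import Mathlib

set_option autoImplicit false

/-! Affine equivalence classes of `k`-subsets: definitions. -/

namespace Pool.Agent.Helper309.Aff

open Finset

/-- Two finite subsets of `ℝ^d` are affinely equivalent: some invertible affine map
`x ↦ M x + v` maps the first onto the second. -/
def AffEq (d : ℕ) (A B : Finset (Fin d → ℝ)) : Prop :=
  ∃ (M : (Fin d → ℝ) ≃ₗ[ℝ] (Fin d → ℝ)) (v : Fin d → ℝ),
    (fun x => M x + v) '' (A : Set (Fin d → ℝ)) = (B : Set (Fin d → ℝ))

lemma affEq_equivalence (d : ℕ) : Equivalence (AffEq d) where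
  refl A := ⟨LinearEquiv.refl ℝ _, 0, by simp⟩
  symm := by
    rintro A B ⟨M, v, h⟩
    refine ⟨M.symm, -(M.symm v), ?_⟩
    rw [← h, Set.image_image]
    have : (fun x => M.symm (M x + v) + -(M.symm v)) = id := by
      funext x
      simp
    rw [this, Set.image_id]
  trans := by
    rintro A B C ⟨M, v, h⟩ ⟨M', v', h'⟩
    refine ⟨M.trans M', M' v + v', ?_⟩
    rw [← h', ← h, Set.image_image]
    congr 1
    funext x
    simp [add_assoc]

/-- The equivalence relation of affine equivalence. -/
def affSetoid (d : ℕ) : Setoid (Finset (Fin d → ℝ)) := ⟨AffEq d, affEq_equivalence d⟩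

/-- The number `c_k(P)` of affine equivalence classes that contain at least one `k`-element
subset of `P`. -/
noncomputable def classCount (d k : ℕ) (P : Finset (Fin d → ℝ)) : ℕ :=
  Set.ncard {C : Quotient (affSetoid d) | ∃ A ∈ P.powersetCard k, Quotient.mk (affSetoid d) A = C}

/-- The minimum `f_d(k,n)` of `c_k(P)` over all `n`-element sets `P` in `ℝ^d`. -/
noncomputable def f (d k n : ℕ) : ℕ :=
  sInf {c | ∃ P : Finset (Fin d → ℝ), P.card = n ∧ classCount d k P = c}

end Pool.Agent.Helper309.Aff
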