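import Pool.Agent.Helper309.Aff.A6
import Pool.Agent.Helper309.Aff.Defs

set_option autoImplicit false

/-! Affine equivalence classes of `k`-subsets: the lower bound. -/

namespace Pool.Agent.Helper309.Aff

open Finset
open scoped Classical

lemma classCount_eq (d k : ℕ) (P : Finset (Fin d → ℝ)) :
    classCount d k P = ((P.powersetCard k).image (Quotient.mk (affSetoid d))).card := by
  unfold classCount
  rw [← Set.ncard_coe_finset]
  congr 1
  ext C
  simp

lemma noninj_card {V : Type*} (X : Finset V) (k : ℕ) (T : Finset (Fin k → V))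
    (hT : ∀ f ∈ T, (∀ i, f i ∈ X) ∧ ¬ Function.Injective f) :
    T.card ≤ k ^ 2 * X.card ^ (k - 1) := by
  rcases Nat.eq_zero_or_pos k with rfl | hk
  · refine le_trans (le_of_eq ?_) (Nat.zero_le _)
    rw [Finset.card_eq_zero, Finset.eq_empty_iff_forall_notMem]
    intro f hf
    exact (hT f hf).2 (Function.injective_of_subsingleton f)
  obtain ⟨m, rfl⟩ : ∃ m, k = m + 1 := ⟨k - 1, by omega⟩
  have hsub : T ⊆
      (Finset.univ : Finset (Fin (m + 1))).offDiag.biUnion (fun x =>
        (Fintype.piFinset (fun _ : Fin (m + 1) => X)).filter (fun f => f x.1 = f x.2)) := by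
    intro f hf
    obtain ⟨h1, h2⟩ := hT f hf
    unfold Function.Injective at h2
    push Not at h2
    obtain ⟨i, j, hij, hne⟩ := h2
    rw [Finset.mem_biUnion]
    exact ⟨(i, j), by simp [hne], Finset.mem_filter.2 ⟨Fintype.mem_piFinset.2 h1, hij⟩⟩
  have hone : ∀ x ∈ (Finset.univ : Finset (Fin (m + 1))).offDiag,
      ((Fintype.piFinset (fun _ : Fin (m + 1) => X)).filter (fun f => f x.1 = f x.2)).card ≤
      X.card ^ m := by
    rintro ⟨i, j⟩ hij
    rw [Finset.mem_offDiag] at hij
    have hij' : i ≠ j := hij.2.2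
    have h3 : X.card ^ m = (Fintype.piFinset (fun _ : Fin m => X)).card := by
      rw [Fintype.card_piFinset]; simp
    rw [h3]
    refine Finset.card_le_card_of_injOn (fun f => fun l => f (i.succAbove l)) ?_ ?_
    · intro f hf
      simp only [Finset.coe_filter, Set.mem_ofPred_eq, Fintype.mem_piFinset] at hf
      simp only [Finset.mem_coe, Fintype.mem_piFinset]
      exact fun l => hf.1 _
    · intro f hf g hg hfg
      simp only [Finset.coe_filter, Set.mem_ofPred_eq] at hf hg
      obtain ⟨j', hj'⟩ := Fin.exists_succAbove_eq hij'.symm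
      have h4 : ∀ l, f (i.succAbove l) = g (i.succAbove l) := fun l => congrFun hfg l
      have h5 : f i = g i := by
        rw [hf.2, hg.2, ← hj']
        exact h4 j'
      funext l
      rcases eq_or_ne l i with rfl | hl
      · exact h5
      · obtain ⟨l', rfl⟩ := Fin.exists_succAbove_eq hl
        exact h4 l'
  calc _ ≤ _ := Finset.card_le_card hsub
    _ ≤ ∑ x ∈ (Finset.univ : Finset (Fin (m + 1))).offDiag,
        ((Fintype.piFinset (fun _ : Fin (m + 1) => X)).filter (fun f => f x.1 = f x.2)).card :=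
        Finset.card_biUnion_le
    _ ≤ ∑ _x ∈ (Finset.univ : Finset (Fin (m + 1))).offDiag, X.card ^ m := Finset.sum_le_sum hone
    _ = (Finset.univ : Finset (Fin (m + 1))).offDiag.card * X.card ^ m := by
        rw [Finset.sum_const, smul_eq_mul]
    _ ≤ (m + 1) ^ 2 * X.card ^ (m + 1 - 1) := by
        refine Nat.mul_le_mul ?_ le_rfl
        rw [Finset.offDiag_card, Finset.card_univ, Fintype.card_fin, sq]
        exact Nat.sub_le _ _

/-- the main estimate -/
lemma main_est (d k m : ℕ) (hm : d = m + 1) {c C : ℝ} {w : ℕ → ℝ} (hPsi : Psi m k c C w)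
    (P : Finset (Fin d → ℝ)) (hP : P.Nonempty) : ∃ N : ℕ,
      c * (P.card : ℝ) ^ k ≤ N + (k : ℝ) ^ 2 * (P.card : ℝ) ^ (k - 1) ∧
      (N : ℝ) ^ 2 ≤ classCount d k P * (k.factorial * (C * (P.card : ℝ) ^ (k + d) * w P.card)) := by
  set n := P.card with hn
  let ι : (Fin d → ℝ) → (Fin d → ℝ) × ℝ := fun x => (x, 1)
  have hιinj : Function.Injective ι := fun x y h => congrArg Prod.fst h
  set X := P.image ι with hX
  have hXcard : X.card = n := Finset.card_image_of_injective _ hιinj
  have hXmem : ∀ u ∈ X, u.1 ∈ P ∧ u.2 = 1 := by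
    intro u hu
    obtain ⟨x, hx, rfl⟩ := Finset.mem_image.1 hu
    exact ⟨hx, rfl⟩
  obtain ⟨θ, hθ'⟩ := dual_ne (S := P.offDiag.image (fun x => x.1 - x.2)) (by
    intro s hs
    obtain ⟨⟨x, y⟩, hxy, rfl⟩ := Finset.mem_image.1 hs
    rw [Finset.mem_offDiag] at hxy
    exact sub_ne_zero.2 hxy.2.2)
  have hθ : ∀ x ∈ P, ∀ y ∈ P, θ x = θ y → x = y := by
    intro x hx y hy hxy
    by_contra hne
    refine hθ' (x - y) (Finset.mem_image.2 ⟨(x, y), Finset.mem_offDiag.2 ⟨hx, hy, hne⟩, rfl⟩) ?_
    rw [map_sub, hxy, sub_self]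
  obtain ⟨G, hG1, hG2, hG3⟩ := hPsi ((Fin d → ℝ) × ℝ) (by
      rw [Module.finrank_prod, Module.finrank_self, Module.finrank_fin_fun]
      omega) X (by
      intro u hu h0
      have := (hXmem u hu).2
      rw [h0] at this
      exact zero_ne_one this) (by
      intro u hu w hw huw a b hab
      obtain ⟨x, hx, rfl⟩ := Finset.mem_image.1 hu
      obtain ⟨y, hy, rfl⟩ := Finset.mem_image.1 hw
      have e1 : a • x + b • y = 0 := congrArg Prod.fst hab
      have e2 : a * 1 + b * 1 = 0 := congrArg Prod.snd hab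
      have hxy : x - y ≠ 0 := sub_ne_zero.2 (fun h => huw (by rw [h]))
      have e3 : b = -a := by linarith
      have e4 : a • (x - y) = 0 := by
        rw [e3] at e1
        rw [smul_sub, ← e1, neg_smul]
        abel
      have e5 : a = 0 := (smul_eq_zero.1 e4).resolve_right hxy
      exact ⟨e5, by linarith⟩) (hP.image _)
  set GI := G.filter (fun f => Function.Injective f) with hGI
  refine ⟨GI.card, ?_, ?_⟩
  · rw [hXcard] at hG2
    refine hG2.trans ?_
    have h1 : (G \ GI).card + GI.card = G.card :=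
      Finset.card_sdiff_add_card_eq_card (Finset.filter_subset _ _)
    have h2 : (G \ GI).card ≤ k ^ 2 * n ^ (k - 1) := by
      rw [← hXcard]
      refine noninj_card X k _ fun f hf => ?_
      rw [Finset.mem_sdiff] at hf
      refine ⟨hG1 f hf.1, fun h => hf.2 ?_⟩
      rw [hGI]
      exact Finset.mem_filter.2 ⟨hf.1, h⟩
    have h3 : G.card ≤ GI.card + k ^ 2 * n ^ (k - 1) := by omega
    exact_mod_cast h3
  · set Cs := (P.powersetCard k).image (Quotient.mk (affSetoid d)) with hCs
    let st : (Fin k → (Fin d → ℝ) × ℝ) → Finset (Fin d → ℝ) :=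
      fun g => Finset.univ.image (fun i => (g i).1)
    let cl : (Fin k → (Fin d → ℝ) × ℝ) → Quotient (affSetoid d) :=
      fun g => Quotient.mk (affSetoid d) (st g)
    have hGIm : ∀ g ∈ GI, (∀ i, g i ∈ X) ∧ Function.Injective g ∧ g ∈ G := by
      intro g hg
      rw [hGI, Finset.mem_filter] at hg
      exact ⟨hG1 g hg.1, hg.2, hg.1⟩
    have hGIi : ∀ g ∈ GI, Function.Injective (fun i => (g i).1) := by
      intro g hg i j hij
      obtain ⟨h1, h2, -⟩ := hGIm g hg
      apply h2
      refine Prod.ext hij ?_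
      rw [(hXmem _ (h1 i)).2, (hXmem _ (h1 j)).2]
    have hcl : ∀ g ∈ GI, cl g ∈ Cs := by
      intro g hg
      refine Finset.mem_image_of_mem _ ?_
      rw [Finset.mem_powersetCard]
      constructor
      · intro x hx
        obtain ⟨i, -, rfl⟩ := Finset.mem_image.1 hx
        exact (hXmem _ ((hGIm g hg).1 i)).1
      · show (Finset.univ.image (fun i => (g i).1)).card = k
        rw [Finset.card_image_of_injective _ (hGIi g hg), Finset.card_univ, Fintype.card_fin]
    have hcs : GI.card ^ 2 ≤ Cs.card * ∑ Q ∈ Cs, (GI.filter (fun g => cl g = Q)).card ^ 2 := by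
      have h1 : GI.card = ∑ Q ∈ Cs, (GI.filter (fun g => cl g = Q)).card :=
        Finset.card_eq_sum_card_fiberwise hcl
      rw [h1]
      exact sq_sum_le_card_mul_sum_sq
    have hpairs : ∑ Q ∈ Cs, (GI.filter (fun g => cl g = Q)).card ^ 2 ≤
        ((GI ×ˢ GI).filter (fun x => cl x.1 = cl x.2)).card := by
      rw [Finset.card_eq_sum_card_fiberwise (f := fun x => cl x.1) (t := Cs)
        (s := (GI ×ˢ GI).filter (fun x => cl x.1 = cl x.2))]
      · refine Finset.sum_le_sum fun Q _ => ?_
        rw [sq, ← Finset.card_product]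
        refine Finset.card_le_card fun x hx => ?_
        have a1 := Finset.mem_filter.1 (Finset.mem_product.1 hx).1
        have a2 := Finset.mem_filter.1 (Finset.mem_product.1 hx).2
        exact Finset.mem_filter.2 ⟨Finset.mem_filter.2 ⟨Finset.mem_product.2 ⟨a1.1, a2.1⟩,
          a1.2.trans a2.2.symm⟩, a1.2⟩
      · intro x hx
        simp only [Finset.coe_filter, Finset.mem_product, Set.mem_ofPred_eq] at hx
        exact hcl _ hx.1.1
    let Es : Equiv.Perm (Fin k) → Finset ((Fin k → (Fin d → ℝ) × ℝ) × (Fin k → (Fin d → ℝ) × ℝ)) :=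
      fun σ => (GI ×ˢ GI).filter (fun x => ∃ (M : (Fin d → ℝ) ≃ₗ[ℝ] (Fin d → ℝ)) (v : Fin d → ℝ),
        ∀ i, (x.2 (σ i)).1 = M (x.1 i).1 + v)
    have hsub : (GI ×ˢ GI).filter (fun x => cl x.1 = cl x.2) ⊆ Finset.univ.biUnion Es := by
      rintro ⟨g, g'⟩ hx
      rw [Finset.mem_filter, Finset.mem_product] at hx
      obtain ⟨⟨hg, hg'⟩, hcc⟩ := hx
      simp only at hg hg' hcc
      obtain ⟨M, v, hMv⟩ : AffEq d (st g) (st g') := Quotient.exact hcc
      have hex : ∀ i, ∃ j, (g' j).1 = M (g i).1 + v := by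
        intro i
        have h1 : M (g i).1 + v ∈ (st g' : Set (Fin d → ℝ)) := by
          rw [← hMv]
          exact ⟨(g i).1, by simp [st], rfl⟩
        have h2 : M (g i).1 + v ∈ st g' := h1
        obtain ⟨j, -, hj⟩ := Finset.mem_image.1 h2
        exact ⟨j, hj⟩
      choose σ hσ using hex
      have hσinj : Function.Injective σ := by
        intro i j hij
        have h1 : M (g i).1 + v = M (g j).1 + v := by rw [← hσ i, ← hσ j, hij]
        exact hGIi g hg (M.injective (add_right_cancel h1))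
      rw [Finset.mem_biUnion]
      refine ⟨Equiv.ofBijective σ (Finite.injective_iff_bijective.1 hσinj), Finset.mem_univ _, ?_⟩
      exact Finset.mem_filter.2 ⟨Finset.mem_product.2 ⟨hg, hg'⟩, M, v, hσ⟩
    have hEs : ∀ σ, ((Es σ).card : ℝ) ≤ C * (n : ℝ) ^ (k + d) * w n := by
      intro σ
      have key := hG3 n hXcard.le (fun _ => P.image θ) (fun _ => Finset.card_image_le)
        ((Es σ).image (fun x => (x.1, fun i => θ (x.2 (σ i)).1))) (by
          intro q hq
          obtain ⟨⟨g, g'⟩, hx, rfl⟩ := Finset.mem_image.1 hq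
          obtain ⟨hx1, M, v, hMv⟩ := Finset.mem_filter.1 hx
          rw [Finset.mem_product] at hx1
          simp only at hx1 hMv ⊢
          refine ⟨(hGIm g hx1.1).2.2, fun i => Finset.mem_image_of_mem _ (hXmem _ ((hGIm g' hx1.2).1 _)).1,
            (θ.comp M.toLinearMap).comp (LinearMap.fst ℝ _ _) +
              (θ v) • (LinearMap.snd ℝ (Fin d → ℝ) ℝ), fun i => ?_⟩
          rw [hMv i]
          simp only [map_add, LinearMap.add_apply, LinearMap.comp_apply, LinearMap.fst_apply,
            LinearMap.smul_apply, LinearMap.snd_apply, smul_eq_mul]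
          rw [(hXmem _ ((hGIm g hx1.1).1 i)).2, mul_one]
          rfl)
      rw [Finset.card_image_of_injOn] at key
      · have e : k + d = k + m + 1 := by omega
        rw [e]
        exact key
      · rintro ⟨g, g'⟩ hx ⟨h, h'⟩ hy hxy
        simp only [Es, Finset.coe_filter, Finset.mem_product, Set.mem_ofPred_eq] at hx hy
        have e1 : g = h := congrArg Prod.fst hxy
        have e2 : ∀ i, θ (g' (σ i)).1 = θ (h' (σ i)).1 := fun i => congrFun (congrArg Prod.snd hxy) i
        have e3 : g' = h' := by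
          funext i
          have e4 := e2 (σ.symm i)
          rw [Equiv.apply_symm_apply] at e4
          have a1 := hXmem _ ((hGIm g' hx.1.2).1 i)
          have a2 := hXmem _ ((hGIm h' hy.1.2).1 i)
          exact Prod.ext (hθ _ a1.1 _ a2.1 e4) (a1.2.trans a2.2.symm)
        rw [e1, e3]
    have htot : (((GI ×ˢ GI).filter (fun x => cl x.1 = cl x.2)).card : ℝ) ≤
        k.factorial * (C * (n : ℝ) ^ (k + d) * w n) := by
      have h1 : ((GI ×ˢ GI).filter (fun x => cl x.1 = cl x.2)).card ≤
          ∑ σ : Equiv.Perm (Fin k), (Es σ).card :=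
        (Finset.card_le_card hsub).trans Finset.card_biUnion_le
      calc (((GI ×ˢ GI).filter (fun x => cl x.1 = cl x.2)).card : ℝ) ≤
            ((∑ σ : Equiv.Perm (Fin k), (Es σ).card : ℕ) : ℝ) := by exact_mod_cast h1
        _ = ∑ σ : Equiv.Perm (Fin k), ((Es σ).card : ℝ) := by push_cast; rfl
        _ ≤ ∑ _σ : Equiv.Perm (Fin k), C * (n : ℝ) ^ (k + d) * w n := Finset.sum_le_sum fun σ _ => hEs σ
        _ = k.factorial * (C * (n : ℝ) ^ (k + d) * w n) := by
            rw [Finset.sum_const, nsmul_eq_mul, Finset.card_univ, Fintype.card_perm, Fintype.card_fin]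
    have h2 : GI.card ^ 2 ≤ Cs.card * ((GI ×ˢ GI).filter (fun x => cl x.1 = cl x.2)).card :=
      hcs.trans (Nat.mul_le_mul_left _ hpairs)
    have h3 : (GI.card : ℝ) ^ 2 ≤
        (Cs.card : ℝ) * (((GI ×ˢ GI).filter (fun x => cl x.1 = cl x.2)).card : ℝ) := by
      exact_mod_cast h2
    calc (GI.card : ℝ) ^ 2 ≤
          (Cs.card : ℝ) * (((GI ×ˢ GI).filter (fun x => cl x.1 = cl x.2)).card : ℝ) := h3
      _ ≤ (Cs.card : ℝ) * (k.factorial * (C * (n : ℝ) ^ (k + d) * w n)) :=
          mul_le_mul_of_nonneg_left htot (by positivity)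
      _ = classCount d k P * (k.factorial * (C * (n : ℝ) ^ (k + d) * w n)) := by rw [classCount_eq]

end Pool.Agent.Helper309.Aff
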