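import Pool.Agent.Helper309.Aff.A7

set_option autoImplicit false

/-! Affine equivalence classes of `k`-subsets: the lower bound for `f`. -/

namespace Pool.Agent.Helper309.Aff

open Finset
open scoped Classical

lemma classCount_pos (d k : ℕ) (P : Finset (Fin d → ℝ)) (h : k ≤ P.card) : 1 ≤ classCount d k P := by
  rw [classCount_eq, Nat.one_le_iff_ne_zero, ← Nat.pos_iff_ne_zero, Finset.card_pos]
  obtain ⟨A, hA⟩ := Finset.powersetCard_nonempty.2 h
  exact ⟨_, Finset.mem_image_of_mem _ hA⟩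

theorem classCount_lower (d k m : ℕ) (hm : d = m + 1) (hk : d + 1 ≤ k) {c C : ℝ} {w : ℕ → ℝ}
    (hw : ∀ n, 1 ≤ n → 1 ≤ w n) (hc : 0 < c) (hC : 0 ≤ C) (hPsi : Psi m k c C w) :
    ∃ c' : ℝ, 0 < c' ∧ ∀ P : Finset (Fin d → ℝ), k ≤ P.card →
      c' * (P.card : ℝ) ^ (k - d) / w P.card ≤ classCount d k P := by
  set n₁ : ℝ := 2 * (k : ℝ) ^ 2 / c + 1 with hn₁
  have hn₁pos : 0 < n₁ := by positivity
  have hfac : (0 : ℝ) < k.factorial := by exact_mod_cast k.factorial_pos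
  refine ⟨min ((c / 2) ^ 2 / (k.factorial * ((C : ℝ) + 1))) ((n₁⁻¹) ^ (k - d)), by positivity,
    fun P hP => ?_⟩
  set n := P.card with hn
  have hn0 : 0 < n := by omega
  have hnR : (0 : ℝ) < n := by exact_mod_cast hn0
  have hw1 : 1 ≤ w n := hw n hn0
  have hw0 : 0 < w n := by linarith
  rcases lt_or_ge (n : ℝ) n₁ with h | h
  · rw [div_le_iff₀ hw0]
    calc _ ≤ (n₁⁻¹) ^ (k - d) * (n : ℝ) ^ (k - d) :=
          mul_le_mul_of_nonneg_right (min_le_right _ _) (by positivity)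
      _ = (n₁⁻¹ * n) ^ (k - d) := by rw [mul_pow]
      _ ≤ 1 := by
          refine pow_le_one₀ (by positivity) ?_
          rw [inv_mul_le_iff₀ hn₁pos]
          linarith
      _ = 1 * 1 := (mul_one 1).symm
      _ ≤ classCount d k P * w n := by
          refine mul_le_mul ?_ hw1 zero_le_one (by positivity)
          exact_mod_cast classCount_pos d k P hP
  · obtain ⟨N, h1, h2⟩ := main_est d k m hm hPsi P (Finset.card_pos.1 hn0)
    have h3 : (k : ℝ) ^ 2 * (n : ℝ) ^ (k - 1) ≤ c / 2 * (n : ℝ) ^ k := by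
      have h4 : (k : ℝ) ^ 2 ≤ c / 2 * n := by
        have : 2 * (k : ℝ) ^ 2 / c ≤ n := by linarith
        rw [div_le_iff₀ hc] at this
        linarith
      have h5 : (n : ℝ) ^ k = n * (n : ℝ) ^ (k - 1) := by
        rw [← pow_succ']
        congr 1
        omega
      rw [h5]
      calc _ ≤ c / 2 * n * (n : ℝ) ^ (k - 1) := mul_le_mul_of_nonneg_right h4 (by positivity)
        _ = _ := by ring
    have h4 : c / 2 * (n : ℝ) ^ k ≤ N := by linarith
    have h5 : (c / 2 * (n : ℝ) ^ k) ^ 2 ≤ (N : ℝ) ^ 2 := pow_le_pow_left₀ (by positivity) h4 2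
    have h7 : (n : ℝ) ^ k * (n : ℝ) ^ k = (n : ℝ) ^ (k - d) * (n : ℝ) ^ (k + d) := by
      rw [← pow_add, ← pow_add]
      congr 1
      omega
    have h8 : (c / 2) ^ 2 * (n : ℝ) ^ (k - d) * (n : ℝ) ^ (k + d) ≤
        (classCount d k P * (k.factorial * ((C : ℝ) + 1)) * w n) * (n : ℝ) ^ (k + d) := by
      calc _ = (c / 2 * (n : ℝ) ^ k) ^ 2 := by
            rw [mul_pow, sq ((n : ℝ) ^ k), h7]; ring
        _ ≤ classCount d k P * (k.factorial * (C * (n : ℝ) ^ (k + d) * w n)) := h5.trans h2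
        _ ≤ classCount d k P * (k.factorial * (((C : ℝ) + 1) * (n : ℝ) ^ (k + d) * w n)) := by
            refine mul_le_mul_of_nonneg_left (mul_le_mul_of_nonneg_left
              (mul_le_mul_of_nonneg_right (mul_le_mul_of_nonneg_right ?_ (by positivity)) hw0.le)
              (by positivity)) (by positivity)
            linarith
        _ = _ := by ring
    have h9 : (c / 2) ^ 2 * (n : ℝ) ^ (k - d) ≤
        classCount d k P * (k.factorial * ((C : ℝ) + 1)) * w n :=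
      le_of_mul_le_mul_right h8 (by positivity)
    rw [div_le_iff₀ hw0]
    calc _ ≤ (c / 2) ^ 2 / (k.factorial * ((C : ℝ) + 1)) * (n : ℝ) ^ (k - d) :=
          mul_le_mul_of_nonneg_right (min_le_left _ _) (by positivity)
      _ = (c / 2) ^ 2 * (n : ℝ) ^ (k - d) / (k.factorial * ((C : ℝ) + 1)) := by ring
      _ ≤ classCount d k P * w n := by
          rw [div_le_iff₀ (by positivity)]
          linarith

lemma f_attained (d k n : ℕ) (hd : 1 ≤ d) :
    ∃ P : Finset (Fin d → ℝ), P.card = n ∧ classCount d k P = f d k n := by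
  have hne : {c | ∃ P : Finset (Fin d → ℝ), P.card = n ∧ classCount d k P = c}.Nonempty := by
    haveI : Nonempty (Fin d) := ⟨⟨0, hd⟩⟩
    obtain ⟨P, hP⟩ := Infinite.exists_subset_card_eq (Fin d → ℝ) n
    exact ⟨_, P, hP, rfl⟩
  exact Nat.sInf_mem hne

theorem f_lower (d k : ℕ) (hd : 1 ≤ d) (hk : d + 3 ≤ k) : ∃ c : ℝ, 0 < c ∧
    ∀ n : ℕ, k ≤ n → c * (n : ℝ) ^ (k - d) ≤ f d k n := by
  obtain ⟨m, hm⟩ : ∃ m, d = m + 1 := ⟨d - 1, by omega⟩
  obtain ⟨c, hc, C, hC, hPsi⟩ := psi_all m k (by omega)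
  obtain ⟨c', hc', h⟩ := classCount_lower d k m hm (by omega) (fun _ _ => le_rfl) hc hC hPsi
  refine ⟨c', hc', fun n hn => ?_⟩
  obtain ⟨P, hP, hPf⟩ := f_attained d k n hd
  have := h P (by rw [hP]; exact hn)
  rw [hPf, hP, div_one] at this
  exact this

theorem f_lower_log (d : ℕ) (hd : 1 ≤ d) : ∃ c : ℝ, 0 < c ∧
    ∀ n : ℕ, d + 2 ≤ n → c * (n : ℝ) ^ 2 / (1 + Real.log n) ≤ f d (d + 2) n := by
  obtain ⟨m, hm⟩ : ∃ m, d = m + 1 := ⟨d - 1, by omega⟩
  obtain ⟨c, hc, C, hC, hPsi⟩ := psi_all3 m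
  have e : m + 3 = d + 2 := by omega
  rw [e] at hPsi
  obtain ⟨c', hc', h⟩ := classCount_lower d (d + 2) m hm (by omega) (fun n hn => by
      have : (1 : ℝ) ≤ n := by exact_mod_cast hn
      have := Real.log_nonneg this
      linarith) hc hC hPsi
  refine ⟨c', hc', fun n hn => ?_⟩
  obtain ⟨P, hP, hPf⟩ := f_attained d (d + 2) n hd
  have := h P (by rw [hP]; exact hn)
  have e2 : d + 2 - d = 2 := by omega
  rw [hPf, hP, e2] at this
  exact this

lemma f_le {d k n : ℕ} (P : Finset (Fin d → ℝ)) (hP : P.card = n) : f d k n ≤ classCount d k P :=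
  Nat.sInf_le ⟨P, hP, rfl⟩

end Pool.Agent.Helper309.Aff
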