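import Pool.Agent.Helper309.Aff.A8

set_option autoImplicit false

/-! Affine equivalence classes of `k`-subsets: elongated grids. -/

namespace Pool.Agent.Helper309.Aff

open Finset
open scoped Classical

/-- `id + N` for `N ^ 2 = 0` -/
def shear {V : Type*} [AddCommGroup V] [Module ℝ V] (N : V →ₗ[ℝ] V) (hN : ∀ x, N (N x) = 0) :
    V ≃ₗ[ℝ] V :=
  LinearEquiv.ofLinear (LinearMap.id + N) (LinearMap.id - N)
    (by
      ext x
      simp [hN])
    (by
      ext x
      simp [hN])

lemma shear_apply {V : Type*} [AddCommGroup V] [Module ℝ V] (N : V →ₗ[ℝ] V)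
    (hN : ∀ x, N (N x) = 0) (x : V) : shear N hN x = x + N x := rfl

lemma cl_eq {d k : ℕ} (p p' : Fin k → Fin d → ℝ) (M : (Fin d → ℝ) ≃ₗ[ℝ] (Fin d → ℝ))
    (v : Fin d → ℝ) (h : ∀ i, p' i = M (p i) + v) :
    Quotient.mk (affSetoid d) (Finset.univ.image p) = Quotient.mk (affSetoid d) (Finset.univ.image p') := by
  refine Quotient.sound ⟨M, v, ?_⟩
  rw [Finset.coe_image, Finset.coe_image, Set.image_image]
  simp only [Finset.coe_univ, Set.image_univ]
  congr 1
  funext i
  exact (h i).symm

/-- the point with first coordinate `x` and other coordinates `y` -/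
def emb {m : ℕ} (x : ℕ) (y : Fin m → ℕ) : Fin (m + 1) → ℝ :=
  Matrix.vecCons (x : ℝ) (fun j => (y j : ℝ))

lemma emb_inj {m : ℕ} {x x' : ℕ} {y y' : Fin m → ℕ} (h : emb x y = emb x' y') : x = x' ∧ y = y' := by
  constructor
  · have := congrFun h 0
    simp only [emb, Matrix.cons_val_zero] at this
    exact_mod_cast this
  · funext j
    have := congrFun h j.succ
    simp only [emb, Matrix.cons_val_succ] at this
    exact_mod_cast this

/-- the elongated grid -/
noncomputable def grid (k m L : ℕ) : Finset (Fin (m + 1) → ℝ) :=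
  (range (L ^ k) ×ˢ Fintype.piFinset (fun _ : Fin m => range L)).image (fun z => emb z.1 z.2)

lemma grid_card (k m L : ℕ) : (grid k m L).card = L ^ (k + m) := by
  unfold grid
  rw [Finset.card_image_of_injective, Finset.card_product, Finset.card_range, Fintype.card_piFinset]
  · simp [pow_add]
  · rintro ⟨x, y⟩ ⟨x', y'⟩ h
    obtain ⟨h1, h2⟩ := emb_inj h
    exact Prod.ext h1 h2

lemma mem_grid {k m L : ℕ} {p : Fin (m + 1) → ℝ} :
    p ∈ grid k m L ↔ ∃ x y, x < L ^ k ∧ (∀ j, y j < L) ∧ p = emb x y := by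
  unfold grid
  rw [Finset.mem_image]
  constructor
  · rintro ⟨⟨x, y⟩, h, rfl⟩
    rw [Finset.mem_product, Finset.mem_range, Fintype.mem_piFinset] at h
    exact ⟨x, y, h.1, fun j => Finset.mem_range.1 (h.2 j), rfl⟩
  · rintro ⟨x, y, h1, h2, rfl⟩
    exact ⟨(x, y), Finset.mem_product.2 ⟨Finset.mem_range.2 h1,
      Fintype.mem_piFinset.2 fun j => Finset.mem_range.2 (h2 j)⟩, rfl⟩

/-- independence of the coordinates in `S` and the constant on the configuration `y` -/
def Ind {k m : ℕ} (y : Fin k → Fin m → ℕ) (S : Finset (Fin m)) : Prop :=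
  ∀ (c : Fin m → ℝ) (t : ℝ), (∀ j, j ∉ S → c j = 0) → (∀ i, ∑ j, c j * (y i j : ℝ) + t = 0) →
    (∀ j, c j = 0) ∧ t = 0

/-- the class of a configuration -/
noncomputable def clD {k m : ℕ} (x : Fin k → ℕ) (y : Fin k → Fin m → ℕ) : Quotient (affSetoid (m + 1)) :=
  Quotient.mk (affSetoid (m + 1)) (Finset.univ.image (fun i => emb (x i) (y i)))

/-- representatives adapted to `S` -/
def Rep {k m : ℕ} (L : ℕ) (S : Finset (Fin m)) (C : Quotient (affSetoid (m + 1)))
    (x : Fin k → ℕ) (y : Fin k → Fin m → ℕ) : Prop :=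
  (∀ i, x i < L ^ k) ∧ (∀ i j, y i j < L) ∧ (∀ i j, j ∉ S → y i j = 0) ∧ Ind y S ∧ C = clD x y

lemma exists_rep {k m L : ℕ} (hk : 0 < k) (x : Fin k → ℕ) (y : Fin k → Fin m → ℕ)
    (hx : ∀ i, x i < L ^ k) (hy : ∀ i j, y i j < L) :
    ∃ (S : Finset (Fin m)) (y' : Fin k → Fin m → ℕ), Rep L S (clD x y) x y' := by
  have hne : (Finset.univ.filter (fun S : Finset (Fin m) => Ind y S)).Nonempty := by
    refine ⟨∅, Finset.mem_filter.2 ⟨Finset.mem_univ _, ?_⟩⟩
    intro c t hc h
    have hc' : ∀ j, c j = 0 := fun j => hc j (Finset.notMem_empty j)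
    refine ⟨hc', ?_⟩
    have := h ⟨0, hk⟩
    simpa [hc'] using this
  obtain ⟨S, hS, hmax⟩ := Finset.exists_max_image _ Finset.card hne
  have hSI : Ind y S := (Finset.mem_filter.1 hS).2
  have hrel : ∀ j, ∃ (a : Fin m → ℝ) (b : ℝ), j ∉ S → (∀ l, l ∉ S → a l = 0) ∧
      ∀ i, (y i j : ℝ) = ∑ l, a l * (y i l : ℝ) + b := by
    intro j
    by_cases hj : j ∈ S
    · exact ⟨0, 0, fun h => absurd hj h⟩
    have hnot : ¬ Ind y (insert j S) := by
      intro h
      have := hmax (insert j S) (Finset.mem_filter.2 ⟨Finset.mem_univ _, h⟩)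
      rw [Finset.card_insert_of_notMem hj] at this
      omega
    unfold Ind at hnot
    push Not at hnot
    obtain ⟨c, t, hc, hct, hcne⟩ := hnot
    have hcj : c j ≠ 0 := by
      intro h0
      have := hSI c t (fun l hl => by
        by_cases hlj : l = j
        · rw [hlj]; exact h0
        · exact hc l (by simp [hlj, hl])) hct
      exact hcne this.1 this.2
    refine ⟨fun l => if l = j then 0 else -(c l / c j), -(t / c j), fun _ => ⟨fun l hl => ?_, fun i => ?_⟩⟩
    · by_cases hlj : l = j
      · simp [hlj]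
      · simp only [hlj, if_false]
        rw [hc l (by simp [hlj, hl])]
        simp
    · have h1 := hct i
      rw [← Finset.add_sum_erase _ _ (Finset.mem_univ j)] at h1
      rw [← Finset.add_sum_erase _ _ (Finset.mem_univ j)]
      simp only [if_true, zero_mul, zero_add]
      have h2 : ∑ l ∈ Finset.univ.erase j, (if l = j then (0 : ℝ) else -(c l / c j)) * (y i l : ℝ) =
          -(1 / c j) * ∑ l ∈ Finset.univ.erase j, c l * (y i l : ℝ) := by
        rw [Finset.mul_sum]
        refine Finset.sum_congr rfl fun l hl => ?_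
        rw [if_neg (Finset.ne_of_mem_erase hl)]
        ring
      rw [h2]
      have h3 : ∑ l ∈ Finset.univ.erase j, c l * (y i l : ℝ) = -(c j * (y i j : ℝ)) - t := by linarith
      rw [h3]
      field_simp
      ring
  choose a b hab using hrel
  refine ⟨S, fun i j => if j ∈ S then y i j else 0, hx, ?_, ?_, ?_, ?_⟩
  · intro i j
    simp only
    split_ifs
    · exact hy i j
    · exact lt_of_le_of_lt (Nat.zero_le _) (hy i j)
  · intro i j hj
    simp [hj]
  · intro c t hc h
    refine hSI c t hc fun i => ?_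
    rw [← h i]
    congr 1
    refine Finset.sum_congr rfl fun j _ => ?_
    by_cases hj : j ∈ S
    · simp [hj]
    · simp [hj, hc j hj]
  · -- the affine map
    let N : (Fin (m + 1) → ℝ) →ₗ[ℝ] (Fin (m + 1) → ℝ) :=
      LinearMap.pi (fun i => Fin.cases (motive := fun _ => (Fin (m + 1) → ℝ) →ₗ[ℝ] ℝ) 0
        (fun j => if j ∈ S then 0 else -∑ l, a j l • LinearMap.proj (l.succ)) i)
    have hN0 : ∀ v, N v 0 = 0 := fun v => rfl
    have hNs : ∀ v (j : Fin m), N v j.succ = if j ∈ S then 0 else -∑ l, a j l * v l.succ := by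
      intro v j
      simp only [N, LinearMap.pi_apply, Fin.cases_succ]
      split_ifs
      · rfl
      · simp [LinearMap.sum_apply]
    have hNN : ∀ v, N (N v) = 0 := by
      intro v
      funext i
      refine Fin.cases (hN0 _) (fun j => ?_) i
      rw [hNs]
      split_ifs with hj
      · rfl
      · rw [Pi.zero_apply, neg_eq_zero]
        refine Finset.sum_eq_zero fun l _ => ?_
        by_cases hl : l ∈ S
        · rw [hNs, if_pos hl, mul_zero]
        · rw [(hab j hj).1 l hl, zero_mul]
    refine cl_eq _ _ (shear N hNN) (Matrix.vecCons 0 (fun j => if j ∈ S then 0 else -(b j))) fun i => ?_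
    rw [shear_apply]
    funext q
    refine Fin.cases ?_ (fun j => ?_) q
    · rw [Pi.add_apply, Pi.add_apply, hN0]
      simp [emb]
    · rw [Pi.add_apply, Pi.add_apply, hNs]
      simp only [emb, Matrix.cons_val_succ]
      by_cases hj : j ∈ S
      · simp [hj]
      · simp only [hj, if_false]
        have := (hab j hj).2 i
        push_cast
        linarith

end Pool.Agent.Helper309.Aff
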