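import Pool.Agent.Helper309.Aff.B1

set_option autoImplicit false

/-! Affine equivalence classes of `k`-subsets: counting in elongated grids. -/

namespace Pool.Agent.Helper309.Aff

open Finset
open scoped Classical

/-- vectors supported on `S` with entries in `range R` -/
noncomputable def pS {m : ℕ} (S : Finset (Fin m)) (R : ℕ) : Finset (Fin m → ℕ) :=
  Fintype.piFinset (fun j => if j ∈ S then range R else {0})

lemma card_pS {m : ℕ} (S : Finset (Fin m)) (R : ℕ) : (pS S R).card = R ^ S.card := by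
  unfold pS
  rw [Fintype.card_piFinset]
  have : ∀ j : Fin m, (if j ∈ S then range R else ({0} : Finset ℕ)).card = if j ∈ S then R else 1 := by
    intro j
    split_ifs <;> simp
  rw [Finset.prod_congr rfl (fun j _ => this j), Finset.prod_ite_mem_eq]
  simp

lemma mem_pS {m : ℕ} {S : Finset (Fin m)} {R : ℕ} {y : Fin m → ℕ} :
    y ∈ pS S R ↔ (∀ j ∈ S, y j < R) ∧ ∀ j, j ∉ S → y j = 0 := by
  unfold pS
  rw [Fintype.mem_piFinset]
  constructor
  · intro h
    refine ⟨fun j hj => ?_, fun j hj => ?_⟩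
    · have := h j
      rw [if_pos hj] at this
      exact Finset.mem_range.1 this
    · have := h j
      rw [if_neg hj] at this
      exact Finset.mem_singleton.1 this
  · rintro ⟨h1, h2⟩ j
    split_ifs with hj
    · exact Finset.mem_range.2 (h1 j hj)
    · exact Finset.mem_singleton.2 (h2 j hj)

/-- a move of a configuration by an affine map -/
lemma clD_move {k m : ℕ} (x : Fin k → ℕ) (y : Fin k → Fin m → ℕ) (c : Fin m → ℕ) (t : ℕ)
    (s : Fin m → ℕ) :
    clD (fun i => x i + ∑ j, c j * y i j + t) (fun i j => y i j + s j) = clD x y := by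
  let N : (Fin (m + 1) → ℝ) →ₗ[ℝ] (Fin (m + 1) → ℝ) :=
    LinearMap.pi (fun i => Fin.cases (motive := fun _ => (Fin (m + 1) → ℝ) →ₗ[ℝ] ℝ)
      (∑ l : Fin m, (c l : ℝ) • LinearMap.proj (l.succ)) (fun _ => 0) i)
  have hN0 : ∀ v, N v 0 = ∑ l : Fin m, (c l : ℝ) * v l.succ := by
    intro v
    simp [N, LinearMap.sum_apply]
  have hNs : ∀ v (j : Fin m), N v j.succ = 0 := fun v j => rfl
  have hNN : ∀ v, N (N v) = 0 := by
    intro v
    funext i
    refine Fin.cases ?_ (fun j => hNs _ _) i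
    rw [hN0]
    refine Finset.sum_eq_zero fun l _ => ?_
    rw [hNs, mul_zero]
  symm
  refine cl_eq _ _ (shear N hNN) (Matrix.vecCons (t : ℝ) (fun j => (s j : ℝ))) fun i => ?_
  rw [shear_apply]
  funext q
  refine Fin.cases ?_ (fun j => ?_) q
  · rw [Pi.add_apply, Pi.add_apply, hN0]
    simp only [emb, Matrix.cons_val_zero, Matrix.cons_val_succ]
    push_cast
    ring
  · rw [Pi.add_apply, Pi.add_apply, hNs]
    simp only [emb, Matrix.cons_val_succ]
    push_cast
    ring

lemma count_S {k m L : ℕ} (hk : 0 < k) (hL : 0 < L) (S : Finset (Fin m))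
    (Cs : Finset (Quotient (affSetoid (m + 1))))
    (hC : ∀ C ∈ Cs, ∃ (x : Fin k → ℕ) (y : Fin k → Fin m → ℕ), Rep L S C x y) :
    Cs.card ≤ (m + 2) ^ k * 2 ^ (m * k) * L ^ (k * (k - 1)) := by
  have hC' : ∀ C, ∃ (x : Fin k → ℕ) (y : Fin k → Fin m → ℕ), C ∈ Cs → Rep L S C x y := by
    intro C
    by_cases h : C ∈ Cs
    · obtain ⟨x, y, hxy⟩ := hC C h
      exact ⟨x, y, fun _ => hxy⟩
    · exact ⟨0, 0, fun h' => absurd h' h⟩
  choose x y hxy using hC'
  set dom := Cs ×ˢ (pS S (L ^ (k - 1)) ×ˢ (range (L ^ k) ×ˢ pS S L)) with hdom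
  set cod : Finset (Fin k → ℕ × (Fin m → ℕ)) :=
    Fintype.piFinset (fun _ => range ((m + 2) * L ^ k) ×ˢ pS S (2 * L)) with hcod
  let F : Quotient (affSetoid (m + 1)) × ((Fin m → ℕ) × (ℕ × (Fin m → ℕ))) → (Fin k → ℕ × (Fin m → ℕ)) :=
    fun z i => (x z.1 i + ∑ j, z.2.1 j * y z.1 i j + z.2.2.1, fun j => y z.1 i j + z.2.2.2 j)
  have hmaps : ∀ z ∈ dom, F z ∈ cod := by
    rintro ⟨C, c, t, s⟩ hz
    simp only [hdom, Finset.mem_product, Finset.mem_range] at hz
    obtain ⟨hCs, hc, ht, hs⟩ := hz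
    obtain ⟨h1, h2, h3, -, -⟩ := hxy C hCs
    rw [mem_pS] at hc hs
    rw [hcod, Fintype.mem_piFinset]
    intro i
    rw [Finset.mem_product, Finset.mem_range, mem_pS]
    refine ⟨?_, fun j hj => ?_, fun j hj => ?_⟩
    · show x C i + ∑ j, c j * y C i j + t < (m + 2) * L ^ k
      have h4 : ∑ j, c j * y C i j ≤ ∑ _j : Fin m, L ^ k := by
        refine Finset.sum_le_sum fun j _ => ?_
        by_cases hj : j ∈ S
        · calc c j * y C i j ≤ L ^ (k - 1) * L := Nat.mul_le_mul (hc.1 j hj).le (h2 i j).le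
            _ = L ^ k := by
              rw [← pow_succ]
              congr 1
              omega
        · rw [hc.2 j hj, zero_mul]
          exact Nat.zero_le _
      rw [Finset.sum_const, Finset.card_univ, Fintype.card_fin, smul_eq_mul] at h4
      have h5 := h1 i
      calc _ < L ^ k + m * L ^ k + L ^ k := by omega
        _ = (m + 2) * L ^ k := by ring
    · show y C i j + s j < 2 * L
      have := h2 i j
      have := hs.1 j hj
      omega
    · show y C i j + s j = 0
      rw [h3 i j hj, hs.2 j hj]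
  have hinj : Set.InjOn F dom := by
    rintro ⟨C, c, t, s⟩ hz ⟨C', c', t', s'⟩ hz' hFF
    simp only [hdom, Finset.coe_product, Set.mem_prod, Finset.mem_coe, Finset.mem_range] at hz hz'
    obtain ⟨hCs, hc, ht, hs⟩ := hz
    obtain ⟨hCs', hc', ht', hs'⟩ := hz'
    have e1 : ∀ i, x C i + ∑ j, c j * y C i j + t = x C' i + ∑ j, c' j * y C' i j + t' :=
      fun i => congrArg Prod.fst (congrFun hFF i)
    have e2 : ∀ i j, y C i j + s j = y C' i j + s' j :=
      fun i j => congrFun (congrArg Prod.snd (congrFun hFF i)) j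
    obtain ⟨-, -, -, hI, hCeq⟩ := hxy C hCs
    obtain ⟨-, -, -, -, hCeq'⟩ := hxy C' hCs'
    have hCC : C = C' := by
      rw [hCeq, hCeq', ← clD_move (x C) (y C) c t s, ← clD_move (x C') (y C') c' t' s']
      congr 1
      · funext i
        exact e1 i
      · funext i j
        exact e2 i j
    subst hCC
    have hs_eq : s = s' := by
      funext j
      have := e2 ⟨0, hk⟩ j
      omega
    rw [mem_pS] at hc hc'
    obtain ⟨h1, h2⟩ := hI (fun j => (c j : ℝ) - c' j) ((t : ℝ) - t') (fun j hj => by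
        rw [hc.2 j hj, hc'.2 j hj]; simp) (fun i => by
        have h3 : ((x C i + ∑ j, c j * y C i j + t : ℕ) : ℝ) =
            ((x C i + ∑ j, c' j * y C i j + t' : ℕ) : ℝ) := by rw [e1 i]
        push_cast at h3
        simp only [sub_mul, Finset.sum_sub_distrib]
        linarith)
    have hcc : c = c' := by
      funext j
      have := h1 j
      have h4 : (c j : ℝ) = c' j := by linarith
      exact_mod_cast h4
    have htt : t = t' := by
      have h4 : (t : ℝ) = t' := by linarith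
      exact_mod_cast h4
    rw [hs_eq, hcc, htt]
  have hcard := Finset.card_le_card_of_injOn F hmaps hinj
  rw [hdom, Finset.card_product, Finset.card_product, Finset.card_product, card_pS, card_pS,
    Finset.card_range, hcod, Fintype.card_piFinset] at hcard
  simp only [Finset.card_product, Finset.card_range, card_pS, Finset.prod_const, Finset.card_univ,
    Fintype.card_fin] at hcard
  set σ := S.card with hσ
  have hσm : σ ≤ m := by
    have := Finset.card_le_univ S
    rwa [Fintype.card_fin] at this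
  have e1 : Cs.card * ((L ^ (k - 1)) ^ σ * (L ^ k * L ^ σ)) = Cs.card * L ^ (k * σ + k) := by
    rw [← pow_mul, ← pow_add, ← pow_add]
    congr 2
    obtain ⟨k', rfl⟩ : ∃ k', k = k' + 1 := ⟨k - 1, by omega⟩
    simp only [Nat.add_sub_cancel]
    ring
  have e2 : ((m + 2) * L ^ k * (2 * L) ^ σ) ^ k =
      ((m + 2) ^ k * 2 ^ (σ * k) * L ^ (k * (k - 1))) * L ^ (k * σ + k) := by
    obtain ⟨k', rfl⟩ : ∃ k', k = k' + 1 := ⟨k - 1, by omega⟩
    simp only [Nat.add_sub_cancel]
    rw [mul_pow, mul_pow, mul_pow, mul_pow]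
    ring
  rw [e1, e2] at hcard
  have h6 : Cs.card ≤ (m + 2) ^ k * 2 ^ (σ * k) * L ^ (k * (k - 1)) :=
    Nat.le_of_mul_le_mul_right hcard (pow_pos hL _)
  refine h6.trans ?_
  refine Nat.mul_le_mul_right _ (Nat.mul_le_mul_left _ ?_)
  exact Nat.pow_le_pow_right (by norm_num) (Nat.mul_le_mul_right _ hσm)

theorem grid_classCount {k m L : ℕ} (hk : 0 < k) (hL : 0 < L) (P : Finset (Fin (m + 1) → ℝ))
    (hP : P ⊆ grid k m L) :
    classCount (m + 1) k P ≤ 2 ^ m * ((m + 2) ^ k * 2 ^ (m * k)) * L ^ (k * (k - 1)) := by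
  rw [classCount_eq]
  set Cs := (P.powersetCard k).image (Quotient.mk (affSetoid (m + 1))) with hCs
  have hrep : ∀ C ∈ Cs, ∃ (S : Finset (Fin m)) (x : Fin k → ℕ) (y : Fin k → Fin m → ℕ),
      Rep L S C x y := by
    intro C hC
    obtain ⟨A, hA, rfl⟩ := Finset.mem_image.1 hC
    rw [Finset.mem_powersetCard] at hA
    have e := A.equivFinOfCardEq hA.2
    have hex : ∀ i : Fin k, ∃ x y, x < L ^ k ∧ (∀ j, y j < L) ∧ (e.symm i).1 = emb x y := fun i =>
      mem_grid.1 (hP (hA.1 (e.symm i).2))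
    choose x y h1 h2 h3 using hex
    obtain ⟨S, y', hy'⟩ := exists_rep (L := L) hk x y h1 h2
    refine ⟨S, x, y', ?_⟩
    have : Quotient.mk (affSetoid (m + 1)) A = clD x y := by
      unfold clD
      congr 1
      ext p
      rw [Finset.mem_image]
      constructor
      · intro hp
        refine ⟨e ⟨p, hp⟩, Finset.mem_univ _, ?_⟩
        rw [← h3, Equiv.symm_apply_apply]
      · rintro ⟨i, -, rfl⟩
        rw [← h3]
        exact (e.symm i).2
    rw [this]
    exact hy'
  have hsub : Cs ⊆ (Finset.univ : Finset (Finset (Fin m))).biUnion (fun S => Cs.filter (fun C =>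
      ∃ (x : Fin k → ℕ) (y : Fin k → Fin m → ℕ), Rep L S C x y)) := by
    intro C hC
    obtain ⟨S, x, y, h⟩ := hrep C hC
    exact Finset.mem_biUnion.2 ⟨S, Finset.mem_univ _, Finset.mem_filter.2 ⟨hC, x, y, h⟩⟩
  calc Cs.card ≤ _ := Finset.card_le_card hsub
    _ ≤ ∑ S : Finset (Fin m), (Cs.filter (fun C =>
      ∃ (x : Fin k → ℕ) (y : Fin k → Fin m → ℕ), Rep L S C x y)).card := Finset.card_biUnion_le
    _ ≤ ∑ _S : Finset (Fin m), (m + 2) ^ k * 2 ^ (m * k) * L ^ (k * (k - 1)) :=
        Finset.sum_le_sum fun S _ => count_S hk hL S _ fun C hC => (Finset.mem_filter.1 hC).2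
    _ = 2 ^ m * ((m + 2) ^ k * 2 ^ (m * k)) * L ^ (k * (k - 1)) := by
        rw [Finset.sum_const, Finset.card_univ, Fintype.card_finset, Fintype.card_fin, smul_eq_mul]
        ring

end Pool.Agent.Helper309.Aff
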