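import Pool.Agent.Helper309.Aff.B2

set_option autoImplicit false

/-! Affine equivalence classes of `k`-subsets: the upper bound. -/

namespace Pool.Agent.Helper309.Aff

open Finset
open scoped Classical

theorem f_upper (d k : ℕ) (hd : 1 ≤ d) (hk : 1 ≤ k) : ∃ C : ℝ, 0 < C ∧
    ∀ n : ℕ, 1 ≤ n → (f d k n : ℝ) ≤ C * (n : ℝ) ^ ((k : ℝ) * (k - 1) / (k + d - 1)) := by
  obtain ⟨m, rfl⟩ : ∃ m, d = m + 1 := ⟨d - 1, by omega⟩
  set C₀ : ℕ := 2 ^ m * ((m + 2) ^ k * 2 ^ (m * k)) with hC₀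
  have hC₀pos : 0 < C₀ := by positivity
  refine ⟨C₀ * 2 ^ (k * (k - 1)), by positivity, fun n hn => ?_⟩
  have hnR : (1 : ℝ) ≤ n := by exact_mod_cast hn
  have he : (0 : ℝ) < ((k + m : ℕ) : ℝ) := by
    have : 0 < k + m := by omega
    exact_mod_cast this
  set r : ℝ := (n : ℝ) ^ (1 / ((k + m : ℕ) : ℝ)) with hr
  have hr1 : 1 ≤ r := Real.one_le_rpow hnR (by positivity)
  have hr0 : 0 ≤ r := by linarith
  have hre : r ^ (k + m) = n := by
    rw [hr, ← Real.rpow_natCast, ← Real.rpow_mul (by positivity)]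
    rw [one_div_mul_cancel he.ne', Real.rpow_one]
  set L : ℕ := ⌈r⌉₊ with hL
  have hLr : r ≤ L := Nat.le_ceil r
  have hL0 : 0 < L := by
    have : (0 : ℝ) < L := by linarith
    exact_mod_cast this
  have hL2 : (L : ℝ) ≤ 2 * r := by
    have := (Nat.ceil_lt_add_one hr0).le
    linarith
  have hcard : n ≤ (grid k m L).card := by
    rw [grid_card]
    have : (n : ℝ) ≤ (L : ℝ) ^ (k + m) := by
      rw [← hre]
      exact pow_le_pow_left₀ hr0 hLr _
    exact_mod_cast this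
  obtain ⟨P, hP1, hP2⟩ := Finset.exists_subset_card_eq hcard
  have h1 : f (m + 1) k n ≤ C₀ * L ^ (k * (k - 1)) :=
    (f_le P hP2).trans (grid_classCount (by omega) hL0 P hP1)
  have h2 : (f (m + 1) k n : ℝ) ≤ C₀ * (L : ℝ) ^ (k * (k - 1)) := by exact_mod_cast h1
  calc (f (m + 1) k n : ℝ) ≤ C₀ * (L : ℝ) ^ (k * (k - 1)) := h2
    _ ≤ C₀ * (2 * r) ^ (k * (k - 1)) :=
        mul_le_mul_of_nonneg_left (pow_le_pow_left₀ (by positivity) hL2 _) (by positivity)
    _ = C₀ * 2 ^ (k * (k - 1)) * r ^ (k * (k - 1)) := by rw [mul_pow]; ring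
    _ = _ := by
        congr 1
        rw [hr, ← Real.rpow_natCast, ← Real.rpow_mul (by positivity)]
        congr 1
        obtain ⟨k', rfl⟩ : ∃ k', k = k' + 1 := ⟨k - 1, by omega⟩
        push_cast
        have : ((k' : ℝ) + 1 + m) ≠ 0 := by positivity
        have h3 : ((k' : ℝ) + 1 + (m + 1) - 1) ≠ 0 := by
          have : ((k' : ℝ) + 1 + (m + 1) - 1) = k' + 1 + m := by ring
          rw [this]
          assumption
        field_simp
        ring

end Pool.Agent.Helper309.Aff
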